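import Pool.Agent.UBT.T9
import Pool.Agent.UB.R1b
import Pool.Agent.UB.R2c
import Pool.Agent.UB.B1

set_option autoImplicit false

open Filter

namespace UBT

/-- the probability that the cube of side `N` is filled at level `s` (dimension `κ + s - 1`), for `p = A^(-κ)` -/
noncomputable def QQ (κ s h N : ℕ) (A : ℝ) : ℝ := UB.Q (κ + (s - 1)) s h N (A⁻¹ ^ κ)

theorem g1_p0 {κ : ℕ} {A : ℝ} (hA : 1 < A) : 0 ≤ A⁻¹ ^ κ := by positivity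

theorem g1_p1 {κ : ℕ} {A : ℝ} (hA : 1 < A) : A⁻¹ ^ κ ≤ 1 :=
  pow_le_one₀ (by positivity) (inv_le_one_of_one_le₀ hA.le)

theorem g1_Q_zero {D s h : ℕ} (hD : 1 ≤ D) (p : ℝ) : UB.Q D s h 0 p = 1 := by
  have h0 : UB.cube D 0 = ∅ := by
    unfold UB.cube UB.cubeAt
    apply Finset.Icc_eq_empty
    intro hle
    have := hle ⟨0, hD⟩
    norm_num at this
  unfold UB.Q
  rw [← BTP.Pr_true (V := UB.mks (UB.cube D 0) h) (p := p)]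
  refine BTP.Pr_congr fun U _ => ?_
  simp only [iff_true]
  intro S _ x hx
  rw [h0] at hx
  exact absurd hx (Finset.notMem_empty _)

theorem QQ_isP (κ s h : ℕ) : IsP (QQ κ s h) := fun _ hA _ =>
  ⟨UB.Q_nonneg (g1_p0 hA) (g1_p1 hA) _ _ _ _, UB.Q_le_one (g1_p0 hA) (g1_p1 hA) _ _ _ _⟩

theorem QQ_rec1 {κ : ℕ} (hκ : 1 ≤ κ) (s h : ℕ) (hs : 1 ≤ s) :
    Rec1 (QQ κ (s + 1) h) (QQ κ s (h + 1)) (QQ κ s h) κ ((κ + (s - 1) + 1) * 2 ^ (κ + (s - 1))) := by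
  obtain ⟨t, rfl⟩ : ∃ t, s = t + 1 := ⟨s - 1, by omega⟩
  intro A hA
  have hp0 := g1_p0 (κ := κ) hA
  have hp1 := g1_p1 (κ := κ) hA
  constructor
  · have h1 := UB.Q_rec (κ + t) (t + 1) h 1 le_rfl hp0 hp1
    rw [g1_Q_zero (by omega)] at h1
    show A⁻¹ ^ κ ≤ UB.Q (κ + t + 1) (t + 1 + 1) h 1 (A⁻¹ ^ κ)
    simpa using h1
  · intro N hN
    have h1 := UB.Q_rec (κ + t) (t + 1) h (N + 1) (by omega) hp0 hp1
    rw [Finset.prod_pow] at h1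
    have h2 : Finset.Ico 1 (N + 1 - 1) = Finset.Icc 1 (N - 1) := by
      ext a
      rw [Finset.mem_Ico, Finset.mem_Icc]
      omega
    rw [h2] at h1
    exact h1

theorem QQ_rec2 {κ : ℕ} (s h : ℕ) (hs : 1 ≤ s) :
    Rec2 (QQ κ (s + 1) h) (QQ κ s h) (κ + s) := by
  obtain ⟨t, rfl⟩ : ∃ t, s = t + 1 := ⟨s - 1, by omega⟩
  intro A hA b N hb hbN
  have hp0 := g1_p0 (κ := κ) hA
  have hp1 := g1_p1 (κ := κ) hA
  have h1 := UB.Q_blocks (κ + t) (t + 1) h N b hb hbN hp0 hp1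
  have h2 : (((κ + (t + 1) : ℕ)) : ℝ) = ((κ + t : ℕ) : ℝ) + 1 := by push_cast; ring
  rw [h2]
  exact h1

theorem QQ_rec3 {κ : ℕ} (h : ℕ) : ∀ A : ℝ, 1 < A → ∀ b : ℕ,
    1 - QQ κ 1 h b A ≤ Real.exp (-(A⁻¹ ^ κ * (b : ℝ) ^ κ)) := by
  intro A hA b
  have hp0 := g1_p0 (κ := κ) hA
  have hp1 := g1_p1 (κ := κ) hA
  have h1 : 1 - (1 - A⁻¹ ^ κ) ^ (b ^ κ) ≤ QQ κ 1 h b A := UB.Q_one (kap := κ) (h := h) (b := b) hp0 hp1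
  have h2 : (1 - A⁻¹ ^ κ) ^ (b ^ κ) ≤ Real.exp (-(A⁻¹ ^ κ * (b : ℝ) ^ κ)) := by
    have h3 : 1 - A⁻¹ ^ κ ≤ Real.exp (-(A⁻¹ ^ κ)) := by
      have := Real.add_one_le_exp (-(A⁻¹ ^ κ))
      linarith
    have h4 := pow_le_pow_left₀ (by linarith) h3 (b ^ κ)
    refine h4.trans (le_of_eq ?_)
    rw [← Real.exp_nat_mul]
    congr 1
    push_cast
    ring
  linarith

/-- all levels, from the two bounds for the threshold `2` -/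
theorem QQ_lev {κ : ℕ} (hκ : 1 ≤ κ) {lam : ℕ → ℝ} (hlam : ∀ s, 0 < lam s)
    (hN1 : ∀ h, ∃ C : ℝ, ∀ᶠ A : ℝ in atTop, ∀ N : ℕ, 1 ≤ N →
      Real.exp (-(C * A * Real.log A)) ≤ QQ κ 2 h N A)
    (hN2 : ∀ h, ∃ c : ℝ, 0 < c ∧ ∃ C : ℝ, ∀ᶠ A : ℝ in atTop, ∀ N : ℕ, C * A ≤ (N : ℝ) →
      Real.exp (-(((κ : ℝ) + 1) * XX (lam (2 + h)) c A)) ≤ QQ κ 2 h N A) (j h : ℕ) :
    ∃ c : ℝ, 0 < c ∧ Lev (QQ κ (j + 2) h) j (lam (j + 2 + h)) c :=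
  lev_all (Q := QQ κ) hκ hlam (fun s => (κ + (s - 1) + 1) * 2 ^ (κ + (s - 1)))
    (fun s h => QQ_isP κ s h) (fun s h hs => QQ_rec1 hκ s h (by omega))
    (fun s h hs => QQ_rec2 s h hs) (fun h => QQ_rec3 h) hN1 hN2 j h

end UBT
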