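import Pool.Agent.UBT.N0
import Pool.Agent.UBT.G1
import Pool.Agent.UB.N9d

set_option autoImplicit false

open Filter

namespace UBT

theorem n1_Ap {κ : ℕ} (hκ : 1 ≤ κ) {A : ℝ} (hA : 0 < A) : UB.Ap κ (A⁻¹ ^ κ) = A := by
  unfold UB.Ap
  have hk : (κ : ℝ) ≠ 0 := by
    have : κ ≠ 0 := by omega
    exact_mod_cast this
  rw [← Real.rpow_natCast, ← Real.rpow_mul (by positivity)]
  have h1 : (κ : ℝ) * -(1 / (κ : ℝ)) = -1 := by field_simp
  rw [h1, Real.rpow_neg_one, inv_inv]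

theorem n1_pow {κ : ℕ} {A : ℝ} (hA : 0 < A) : A⁻¹ ^ κ = Real.exp (-((κ : ℝ) * Real.log A)) := by
  rw [Real.exp_neg, Real.exp_nat_mul, Real.exp_log hA, inv_pow]

theorem nuc1 {κ : ℕ} (hκ : 1 ≤ κ) : Nuc1 κ := by
  intro h
  obtain ⟨D, rfl⟩ : ∃ D, κ = D + 1 := ⟨κ - 1, by omega⟩
  set M : ℕ := 2 ^ (D + 2) + 2 * (D + 2) with hM
  set lm : ℝ := BTR.lamk (D + 1) (h + 1) with hlm
  have hlm0 : 0 < lm := BTG.lamk_pos _ (by omega)
  refine ⟨((D + 1 : ℕ) : ℝ) * (M + 1) + (D + 2) * lm, ?_⟩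
  filter_upwards [eventually_ge_atTop (Real.exp 1)] with A hA
  have hA0 : 0 < A := lt_of_lt_of_le (Real.exp_pos _) hA
  have hA1 : 1 < A := lt_of_lt_of_le (Real.one_lt_exp_iff.mpr one_pos) hA
  have hlog : 1 ≤ Real.log A := (Real.le_log_iff_exp_le hA0).mpr hA
  have hAl : Real.log A ≤ A * Real.log A := by nlinarith
  have hAA : A ≤ A * Real.log A := by nlinarith
  have hp0 := g1_p0 (κ := D + 1) hA1
  have hp1 := g1_p1 (κ := D + 1) hA1
  have hpp : 0 < A⁻¹ ^ (D + 1) := by positivity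
  have hp1' : A⁻¹ ^ (D + 1) < 1 := by
    apply pow_lt_one₀ (by positivity) (inv_lt_one_of_one_lt₀ hA1) (by omega)
  intro N hN
  have hM1 : (1 : ℝ) ≤ (M : ℝ) + 1 := by
    have : (0 : ℝ) ≤ (M : ℝ) := Nat.cast_nonneg _
    linarith
  have hD0 : (0 : ℝ) ≤ ((D + 1 : ℕ) : ℝ) := Nat.cast_nonneg _
  have hD2 : (0 : ℝ) ≤ (D : ℝ) := Nat.cast_nonneg _
  rcases Nat.lt_or_ge N 2 with hN2 | hN2
  · have hN1 : N = 1 := by omega
    subst hN1
    have h1 := (QQ_rec1 (κ := D + 1) (by omega) 1 h le_rfl A hA1).1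
    have h2 : QQ (D + 1) (1 + 1) h 1 A = UB.Q (D + 1 + 1) 2 h 1 (A⁻¹ ^ (D + 1)) := rfl
    rw [h2] at h1
    refine le_trans ?_ h1
    rw [n1_pow hA0]
    apply Real.exp_le_exp.mpr
    have h3 : ((D + 1 : ℕ) : ℝ) * Real.log A ≤ ((D + 1 : ℕ) : ℝ) * (M + 1) * (A * Real.log A) := by
      have h4 : Real.log A ≤ ((M : ℝ) + 1) * (A * Real.log A) := by
        have : 0 ≤ A * Real.log A := by positivity
        nlinarith
      nlinarith
    have h5 : 0 ≤ ((D : ℝ) + 2) * lm * (A * Real.log A) := by positivity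
    nlinarith
  · have h1 := UB.Q_lower D h (p := A⁻¹ ^ (D + 1)) hp0 hp1 (a₀ := 2) (l := 0) (w := 0) (J := 0) (b := N)
      le_rfl (by omega) (fun j hj => absurd hj (Nat.not_lt_zero _))
    have h2 := UB.prod_ge (kap := D + 1) (by omega) (h + 1) N hpp hp1'
    rw [n1_Ap (by omega) hA0] at h2
    have h3 : Real.exp (-(lm * A)) ^ (D + 2) ≤
        (∏ x ∈ Finset.Ioc 2 N, BTR.bk (h + 1) (UB.uu (A⁻¹ ^ (D + 1)) ((x - 2) ^ (D + 1)))) ^ (D + 2) :=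
      pow_le_pow_left₀ (Real.exp_pos _).le h2 _
    rw [pow_zero, mul_one] at h1
    have h4 : (A⁻¹ ^ (D + 1)) ^ M * Real.exp (-(lm * A)) ^ (D + 2) ≤
        UB.Q (D + 2) 2 h N (A⁻¹ ^ (D + 1)) :=
      le_trans (mul_le_mul_of_nonneg_left h3 (by positivity)) h1
    refine le_trans ?_ h4
    rw [n1_pow hA0, ← Real.exp_nat_mul, ← Real.exp_nat_mul, ← Real.exp_add]
    apply Real.exp_le_exp.mpr
    push_cast
    have h5 : (M : ℝ) * (((D : ℝ) + 1) * Real.log A) ≤ ((D : ℝ) + 1) * (M + 1) * (A * Real.log A) := by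
      have h6 : 0 ≤ (M : ℝ) * ((D : ℝ) + 1) := by positivity
      have h7 : (M : ℝ) * ((D : ℝ) + 1) * Real.log A ≤ (M : ℝ) * ((D : ℝ) + 1) * (A * Real.log A) :=
        mul_le_mul_of_nonneg_left hAl h6
      have h8 : 0 ≤ ((D : ℝ) + 1) * (A * Real.log A) := by positivity
      nlinarith
    have h9 : ((D : ℝ) + 2) * (lm * A) ≤ ((D : ℝ) + 2) * lm * (A * Real.log A) := by
      have : 0 ≤ ((D : ℝ) + 2) * lm := by positivity
      nlinarith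
    nlinarith

theorem nuc2 {κ : ℕ} (hκ : 1 ≤ κ) : Nuc2 κ := by
  intro h
  obtain ⟨D, rfl⟩ : ∃ D, κ = D + 1 := ⟨κ - 1, by omega⟩
  obtain ⟨c, p0, hc, hp0, hnuc⟩ := UB.nucl2 D h
  have hD2 : (0 : ℝ) < (D : ℝ) + 2 := by positivity
  refine ⟨c / ((D : ℝ) + 2), by positivity, 4, ?_⟩
  filter_upwards [eventually_gt_atTop (1 : ℝ), eventually_ge_atTop (p0⁻¹)] with A hA1 hAp
  have hA0 : 0 < A := by linarith
  intro N hN
  have hp : A⁻¹ ^ (D + 1) ≤ p0 := by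
    have h1 : A⁻¹ ^ (D + 1) ≤ A⁻¹ :=
      pow_le_of_le_one (by positivity) (inv_le_one_of_one_le₀ hA1.le) (by omega)
    have h2 : A⁻¹ ≤ p0 := by
      rw [inv_le_comm₀ hA0 hp0]
      exact hAp
    exact h1.trans h2
  have h1 := hnuc (A⁻¹ ^ (D + 1)) (by positivity) hp N
  rw [n1_Ap (by omega) hA0] at h1
  refine le_trans (le_of_eq ?_) (h1 hN)
  congr 1
  push_cast
  field_simp
  ring

end UBT
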