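import Pool.Agent.UBT.H2
import Pool.Agent.UBT.N1

set_option autoImplicit false

open scoped Classical
open Filter

namespace UBT

/-- The upper bound: for all `2 ≤ r ≤ d` there is `c > 0` with
`p_c([n]^d, r) ≤ (λ/L - c/L^(3/2))^(d-r+1)` for all large `n`, `L` the `(r-1)`-fold iterated logarithm of `n`,
`λ = lamk (d-r+1) (r-1)`. -/
theorem upper_bound {d r : ℕ} (hr : 2 ≤ r) (hrd : r ≤ d) : ∃ c : ℝ, 0 < c ∧ ∀ᶠ n : ℕ in atTop,
      0 < BTR.lamk (d - r + 1) (r - 1) / Real.log^[r-1] (n:ℝ) -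
        c / (Real.log^[r-1] (n:ℝ)) ^ ((3:ℝ)/2) ∧
      0 < Real.log^[r-1] (n:ℝ) ∧
      sInf {p : ℝ | 0 ≤ p ∧ p ≤ 1 ∧ (1:ℝ)/2 ≤ ∑ A : Finset (Fin d → Fin n),
            (if (∀ S : Finset (Fin d → Fin n), A ⊆ S →
                (∀ v : Fin d → Fin n,
                  r ≤ (Finset.univ.filter (fun u : Fin d → Fin n =>
                    u ∈ S ∧ ∑ i, |((u i : ℕ) : ℤ) - ((v i : ℕ) : ℤ)| = 1)).card → v ∈ S) →
                S = Finset.univ)
            then p ^ A.card * (1 - p) ^ (Fintype.card (Fin d → Fin n) - A.card) else 0)}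
        ≤ (BTR.lamk (d - r + 1) (r - 1) / Real.log^[r-1] (n:ℝ) -
          c / (Real.log^[r-1] (n:ℝ)) ^ ((3:ℝ)/2)) ^ (d - r + 1) :=
  upper_of_nuc (fun _ h => nuc1 h) (fun _ h => nuc2 h) hr hrd

end UBT
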