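import Mathlib

set_option autoImplicit false

open Filter

/-! # Upper bound for the critical probability of `r`-neighbour bootstrap percolation:
iterated exponentials and the induction on the threshold -/

namespace UBT

/-- the `j`-fold iterated exponential -/
noncomputable def tow (j : ℕ) (x : ℝ) : ℝ := Real.exp^[j] x

/-- `l A - c √A` -/
noncomputable def XX (l c A : ℝ) : ℝ := l * A - c * Real.sqrt A

/-- The statement at a given level, for a function `Q N A` (the probability that the cube of side `N` is filled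
when `p = A^(-κ)`): `Q ≥ exp (-(E_j X)^2)` for every `N ≥ 1`, and `1 - Q ≤ N^(-m)` as soon as `N ≥ E_{j+1} X`,
`X = l A - c √A`, `A` large. -/
def Lev (Q : ℕ → ℝ → ℝ) (j : ℕ) (l c : ℝ) : Prop :=
  (∀ᶠ A : ℝ in atTop, ∀ N : ℕ, 1 ≤ N → Real.exp (-(tow j (XX l c A) ^ 2)) ≤ Q N A) ∧
  ∀ m : ℕ, ∀ᶠ A : ℝ in atTop, ∀ N : ℕ, tow (j + 1) (XX l c A) ≤ (N : ℝ) →
    (1 - Q N A) * (N : ℝ) ^ m ≤ 1

/-- the values are probabilities -/
def IsP (Q : ℕ → ℝ → ℝ) : Prop := ∀ A : ℝ, 1 < A → ∀ N : ℕ, 0 ≤ Q N A ∧ Q N A ≤ 1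

/-- First recursion (growth of a cube): `Q` is the level `(s+1, h)`, `Q1` the level `(s, h+1)` (helped faces),
`Q0` the level `(s, h)` (the last layers). -/
def Rec1 (Q Q1 Q0 : ℕ → ℝ → ℝ) (κ K : ℕ) : Prop :=
  ∀ A : ℝ, 1 < A → (A⁻¹ ^ κ ≤ Q 1 A ∧ ∀ N : ℕ, 1 ≤ N →
    A⁻¹ ^ κ * (∏ a ∈ Finset.Icc 1 (N - 1), Q1 a A) ^ K * (Q0 N A) ^ K ≤ Q (N + 1) A)

/-- Second recursion (many trials): a filled cube of side `b` somewhere, and all `(D-1)`-dimensional cubes of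
side `b` filled, fill the cube of side `N`. -/
def Rec2 (Q Q0 : ℕ → ℝ → ℝ) (D : ℕ) : Prop :=
  ∀ A : ℝ, 1 < A → ∀ b N : ℕ, 1 ≤ b → b ≤ N →
    1 - Q N A ≤ (1 - Q b A) ^ ((N / b) ^ D) + D * (N : ℝ) ^ D * (1 - Q0 b A)

end UBT
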