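import Pool.Agent.UBT.T1

set_option autoImplicit false

open Filter

namespace UBT

/-- [UBT-F1] PROOF. Induction on `k`, `Function.iterate_succ_apply'`, `Real.tendsto_log_atTop.comp`, `tendsto_natCast_atTop_atTop`. -/
theorem iter_log_tendsto (k : ℕ) :
    Tendsto (fun n : ℕ => Real.log^[k] (n : ℝ)) atTop atTop := by
  induction k with
  | zero => exact tendsto_natCast_atTop_atTop
  | succ k ih =>
    have h := Real.tendsto_log_atTop.comp ih
    refine h.congr fun n => ?_
    rw [Function.iterate_succ_apply']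
    rfl

/-- PROOF. Induction on `k`: `tow (k+1) (log^[k+1] n) = tow k (exp (log (log^[k] n))) = tow k (log^[k] n)` (`tow_succ'`,
`Function.iterate_succ_apply'`, `Real.exp_log`) as soon as `log^[k] n > 0`. -/
theorem tow_iter_log (k : ℕ) : ∀ᶠ n : ℕ in atTop, tow k (Real.log^[k] (n : ℝ)) = n := by
  induction k with
  | zero => exact Filter.Eventually.of_forall fun n => rfl
  | succ k ih =>
    filter_upwards [ih, (iter_log_tendsto k).eventually_gt_atTop 0] with n hn hpos
    rw [tow_succ', Function.iterate_succ_apply', Real.exp_log hpos, hn]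

/-- The inversion `p = (l/L - c'/L^(3/2))^κ`.
PROOF. Put `c' = c √l / 2 > 0` — any `c' > 0` with `c' < c √l` works. For large `L`, `R = √L`, `L^(3/2) = L R` (as in `BTP.F1`: `Real.rpow_add`, `Real.sqrt_eq_rpow`),
`u = l/L - c'/L^(3/2) = (l - c'/R)/L`, with `0 < l - c'/R` for `R > c'/l`; `u < 1` for `L > l`. `A = u⁻¹ = L/(l - c'/R)`; `A ≥ L/l`, so `√A ≥ √(L/l)`.
`XX l c A ≤ L` iff `l A - L ≤ c √A`; `l A - L = L (c'/R)/(l - c'/R) = c' R/(l - c'/R)`, and `c √A ≥ c R/√l`; so it suffices that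
`c' √l ≤ c (l - c'/R)`, i.e. (with `c' = c √l/2`) `l/2 ≤ l - c'/R`, true for `R ≥ 2 c'/l`. -/
theorem inversion {l c : ℝ} (hl : 0 < l) (hc : 0 < c) : ∃ c' : ℝ, 0 < c' ∧ ∀ᶠ L : ℝ in atTop,
    0 < l / L - c' / L ^ ((3 : ℝ) / 2) ∧ l / L - c' / L ^ ((3 : ℝ) / 2) < 1 ∧
    L / l ≤ (l / L - c' / L ^ ((3 : ℝ) / 2))⁻¹ ∧
    XX l c (l / L - c' / L ^ ((3 : ℝ) / 2))⁻¹ ≤ L := by
  have hsl : 0 < Real.sqrt l := Real.sqrt_pos.mpr hl
  have hsl2 : Real.sqrt l * Real.sqrt l = l := Real.mul_self_sqrt hl.le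
  refine ⟨c * Real.sqrt l / 2, by positivity, ?_⟩
  set c' : ℝ := c * Real.sqrt l / 2 with hc'
  have hc'pos : 0 < c' := by positivity
  filter_upwards [eventually_gt_atTop (0 : ℝ), eventually_gt_atTop l,
    Real.tendsto_sqrt_atTop.eventually_ge_atTop (2 * c' / l)] with L hL hLl hR
  set R : ℝ := Real.sqrt L with hRdef
  have hRpos : 0 < R := Real.sqrt_pos.mpr hL
  have hR2 : R * R = L := Real.mul_self_sqrt hL.le
  have hpow : L ^ ((3 : ℝ) / 2) = L * R := by
    rw [show (3 : ℝ) / 2 = 1 + 1 / 2 by norm_num, Real.rpow_add hL, Real.rpow_one,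
      ← Real.sqrt_eq_rpow]
  -- `D = l - c'/R`
  set D : ℝ := l - c' / R with hD
  have hcR : c' / R ≤ l / 2 := by
    rw [div_le_iff₀ hRpos]
    rw [div_le_iff₀ hl] at hR
    nlinarith
  have hcR0 : 0 < c' / R := div_pos hc'pos hRpos
  have hDl : l / 2 ≤ D := by rw [hD]; linarith
  have hDpos : 0 < D := by linarith
  have hDle : D < l := by rw [hD]; linarith
  have hu : l / L - c' / L ^ ((3 : ℝ) / 2) = D / L := by
    rw [hpow, hD]
    field_simp
  rw [hu]
  have hinv : (D / L)⁻¹ = L / D := inv_div D L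
  rw [hinv]
  refine ⟨div_pos hDpos hL, ?_, ?_, ?_⟩
  · rw [div_lt_one hL]; linarith
  · exact div_le_div_of_nonneg_left hL.le hDpos hDle.le
  · unfold XX
    have h1 : L / l ≤ L / D := div_le_div_of_nonneg_left hL.le hDpos hDle.le
    have h2 : R / Real.sqrt l ≤ Real.sqrt (L / D) := by
      have : Real.sqrt (L / l) = R / Real.sqrt l := Real.sqrt_div hL.le l
      rw [← this]
      exact Real.sqrt_le_sqrt h1
    have h3 : l * (L / D) - L = c' * R / D := by
      have hD' : D ≠ 0 := hDpos.ne'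
      have hR' : R ≠ 0 := hRpos.ne'
      have h4 : l - D = c' / R := by rw [hD]; ring
      have h5 : (l - D) * L = c' * R := by
        rw [h4, ← hR2]; field_simp
      rw [eq_div_iff hD']
      have h6 : (l * (L / D) - L) * D = (l - D) * L := by
        field_simp
      rw [h6, h5]
    have h4 : c' * R / D ≤ c * (R / Real.sqrt l) := by
      rw [div_le_iff₀ hDpos]
      have h5 : c * (R / Real.sqrt l) * D = c * R * (D / Real.sqrt l) := by ring
      rw [h5]
      have h6 : Real.sqrt l / 2 ≤ D / Real.sqrt l := by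
        rw [le_div_iff₀ hsl]
        nlinarith
      have h7 : c' * R = c * R * (Real.sqrt l / 2) := by rw [hc']; ring
      rw [h7]
      exact mul_le_mul_of_nonneg_left h6 (by positivity)
    have h5 : c * (R / Real.sqrt l) ≤ c * Real.sqrt (L / D) :=
      mul_le_mul_of_nonneg_left h2 hc.le
    linarith

end UBT
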