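import Pool.Agent.UBT.F1

set_option autoImplicit false

open Filter

namespace UBT

/-- [UBT-F2] from the level statement to the critical value.
PROOF. `inversion` gives `c'`. `L_n = log^[j+1] n → ∞` (`iter_log_tendsto`); `u_n = l/L_n - c'/L_n^(3/2)`, `0 < u_n < 1`; `u_n⁻¹ ≥ L_n / l → ∞`, so
the statement `h.2 1` holds at `A = u_n⁻¹` for large `n`: if `tow (j+1) (XX l c u_n⁻¹) ≤ n` then `(1 - Q n u_n⁻¹) n ≤ 1`, so
`Q n u_n⁻¹ ≥ 1 - 1/n ≥ 1/2` for `n ≥ 2`. And `tow (j+1) (XX l c u_n⁻¹) ≤ tow (j+1) L_n = n` (`tow_mono`, `tow_iter_log`). -/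
theorem lev_final {Q : ℕ → ℝ → ℝ} {j : ℕ} {l c : ℝ} (hl : 0 < l) (hc : 0 < c) (h : Lev Q j l c) :
    ∃ c' : ℝ, 0 < c' ∧ ∀ᶠ n : ℕ in atTop,
      0 < l / Real.log^[j + 1] (n : ℝ) - c' / (Real.log^[j + 1] (n : ℝ)) ^ ((3 : ℝ) / 2) ∧
      l / Real.log^[j + 1] (n : ℝ) - c' / (Real.log^[j + 1] (n : ℝ)) ^ ((3 : ℝ) / 2) < 1 ∧
      1 / 2 ≤ Q n (l / Real.log^[j + 1] (n : ℝ) -
        c' / (Real.log^[j + 1] (n : ℝ)) ^ ((3 : ℝ) / 2))⁻¹ := by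
  obtain ⟨c', hc', hinv⟩ := inversion hl hc
  refine ⟨c', hc', ?_⟩
  have hL := iter_log_tendsto (j + 1)
  have hinv' := hL.eventually hinv
  have htow := tow_iter_log (j + 1)
  have hA := h.2 1
  rw [eventually_atTop] at hA
  obtain ⟨A0, hA0⟩ := hA
  filter_upwards [hinv', htow, hL.eventually_ge_atTop (l * A0), eventually_ge_atTop 2]
    with n h1 h2 h3 h4
  obtain ⟨h5, h6, h7, h8⟩ := h1
  refine ⟨h5, h6, ?_⟩
  have h9 : A0 ≤ Real.log^[j + 1] (n : ℝ) / l := by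
    rw [le_div_iff₀ hl]
    linarith
  have h10 := hA0 _ (h9.trans h7) n ((tow_mono (j + 1) h8).trans h2.le)
  rw [pow_one] at h10
  have h11 : (2 : ℝ) ≤ n := by exact_mod_cast h4
  by_contra hcon
  push Not at hcon
  have h12 : (1 / 2 : ℝ) * 2 < (1 - Q n (l / Real.log^[j + 1] (n : ℝ) -
        c' / (Real.log^[j + 1] (n : ℝ)) ^ ((3 : ℝ) / 2))⁻¹) * n := by
    apply mul_lt_mul_of_lt_of_le_of_pos_of_nonneg _ h11 (by norm_num) (by linarith)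
    linarith
  linarith

end UBT
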