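import Pool.Agent.UB.M5

set_option autoImplicit false

open scoped Classical
open Finset

namespace UBT

/-- percolation in `[n]^d` for the threshold `r`, as in the frozen statement -/
def PercR (d n r : ℕ) (A : Finset (Fin d → Fin n)) : Prop :=
  ∀ S : Finset (Fin d → Fin n), A ⊆ S →
    (∀ v : Fin d → Fin n,
      r ≤ (Finset.univ.filter (fun u : Fin d → Fin n =>
        u ∈ S ∧ ∑ i, |((u i : ℕ) : ℤ) - ((v i : ℕ) : ℤ)| = 1)).card → v ∈ S) →
    S = Finset.univ

/-- the embedding `v ↦ v + 1` -/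
def h1_e (d n : ℕ) : (Fin d → Fin n) ↪ UB.Site d :=
  ⟨fun v i => (((v i : Fin n) : ℕ) : ℤ) + 1, fun v w h => by
    funext i
    have := congrFun h i
    simp only [add_left_inj, Nat.cast_inj] at this
    exact Fin.ext this⟩

/-- the embedding `v ↦ (v + 1, 0)` -/
def h1_m (d n : ℕ) : (Fin d → Fin n) ↪ UB.Mk d :=
  ⟨fun v => (h1_e d n v, 0), fun _ _ h => (h1_e d n).injective (Prod.mk.inj h).1⟩

theorem h1_e_apply {d n : ℕ} (v : Fin d → Fin n) (i : Fin d) :
    h1_e d n v i = (((v i : Fin n) : ℕ) : ℤ) + 1 := rfl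

theorem h1_m_apply {d n : ℕ} (v : Fin d → Fin n) : h1_m d n v = (h1_e d n v, 0) := rfl

theorem h1_e_mem {d n : ℕ} (v : Fin d → Fin n) : h1_e d n v ∈ UB.cube d n := by
  rw [UB.mem_cube]
  intro i
  rw [h1_e_apply]
  have := (v i).2
  omega

theorem h1_e_surj {d n : ℕ} {w : UB.Site d} (hw : w ∈ UB.cube d n) : ∃ v, h1_e d n v = w := by
  rw [UB.mem_cube] at hw
  refine ⟨fun i => ⟨(w i - 1).toNat, ?_⟩, ?_⟩
  · have := hw i
    omega
  · funext i
    rw [h1_e_apply]
    have := hw i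
    show (((w i - 1).toNat : ℕ) : ℤ) + 1 = w i
    omega

theorem h1_map_univ {d n : ℕ} : (Finset.univ : Finset (Fin d → Fin n)).map (h1_m d n) =
    UB.mks (UB.cube d n) 0 := by
  ext w
  rw [Finset.mem_map, UB.mem_mks]
  constructor
  · rintro ⟨v, _, rfl⟩
    exact ⟨h1_e_mem v, le_rfl⟩
  · rintro ⟨hw, hw2⟩
    obtain ⟨v, hv⟩ := h1_e_surj hw
    refine ⟨v, Finset.mem_univ _, ?_⟩
    rw [h1_m_apply, hv]
    ext1
    · rfl
    · show 0 = w.2
      omega

/-- the neighbour of `x` in direction `ib` -/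
def h1_st {d : ℕ} (x : UB.Site d) (ib : Fin d × Bool) : UB.Site d :=
  Function.update x ib.1 (if ib.2 then x ib.1 + 1 else x ib.1 - 1)

theorem h1_st_inj {d : ℕ} (x : UB.Site d) : Function.Injective (h1_st x) := by
  rintro ⟨i, b⟩ ⟨j, c⟩ h
  have hi := congrFun h i
  unfold h1_st at hi
  simp only [Function.update_self] at hi
  by_cases hij : i = j
  · subst hij
    simp only [Function.update_self] at hi
    cases b <;> cases c <;> simp at hi ⊢ <;> omega
  · rw [Function.update_of_ne hij] at hi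
    cases b <;> simp at hi

theorem h1_st_dist {d : ℕ} (x : UB.Site d) (ib : Fin d × Bool) : ∑ i, |h1_st x ib i - x i| = 1 := by
  rw [Finset.sum_eq_single ib.1]
  · unfold h1_st
    rw [Function.update_self]
    cases ib.2 <;> simp
  · intro j _ hj
    unfold h1_st
    rw [Function.update_of_ne hj]
    simp
  · intro h
    exact absurd (Finset.mem_univ _) h

theorem h1_nb {d : ℕ} (S : Set (UB.Site d)) (x : UB.Site d) :
    UB.nb S x = (Finset.univ.filter (fun ib : Fin d × Bool => h1_st x ib ∈ S)).card := by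
  rw [Finset.card_filter, Fintype.sum_prod_type]
  unfold UB.nb
  refine Finset.sum_congr rfl fun i _ => ?_
  rw [Fintype.sum_bool]
  unfold h1_st
  simp

theorem h1_nb_le {d n : ℕ} (S : Finset (Fin d → Fin n)) (S' : Set (UB.Site d))
    (hS : ∀ y ∈ S', ∃ u ∈ S, h1_e d n u = y) (v : Fin d → Fin n) :
    UB.nb S' (h1_e d n v) ≤ (Finset.univ.filter (fun u : Fin d → Fin n =>
        u ∈ S ∧ ∑ i, |((u i : ℕ) : ℤ) - ((v i : ℕ) : ℤ)| = 1)).card := by
  rw [h1_nb, ← Finset.card_image_of_injective _ (h1_st_inj (h1_e d n v)),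
    ← Finset.card_map (h1_e d n)]
  apply Finset.card_le_card
  intro y hy
  obtain ⟨ib, hib, rfl⟩ := Finset.mem_image.mp hy
  rw [Finset.mem_filter] at hib
  obtain ⟨u, huS, hu⟩ := hS _ hib.2
  rw [Finset.mem_map]
  refine ⟨u, ?_, hu⟩
  rw [Finset.mem_filter]
  refine ⟨Finset.mem_univ _, huS, ?_⟩
  rw [← h1_st_dist (h1_e d n v) ib, ← hu]
  refine Finset.sum_congr rfl fun i _ => ?_
  rw [h1_e_apply, h1_e_apply]
  congr 1
  ring

theorem h1_perc {d n r : ℕ} {A : Finset (Fin d → Fin n)}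
    (hA : UB.Fill r 0 (UB.cube d n) ((A.map (h1_m d n) : Finset (UB.Mk d)) : Set (UB.Mk d))) :
    PercR d n r A := by
  intro S hAS hcl
  have h1 := hA {x | ∃ v ∈ S, h1_e d n v = x} ?_
  · ext v
    constructor
    · intro _
      exact Finset.mem_univ _
    · intro _
      obtain ⟨w, hw, hwv⟩ := h1 _ (h1_e_mem v)
      rw [← (h1_e d n).injective hwv]
      exact hw
  · intro x hx
    obtain ⟨v, rfl⟩ := h1_e_surj hx
    constructor
    · intro hv
      rw [Finset.mem_coe, ← h1_m_apply, Finset.mem_map'] at hv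
      exact ⟨v, hAS hv, rfl⟩
    · intro hr
      refine ⟨v, hcl v (hr.trans ?_), rfl⟩
      have hmk : UB.mk 0 ((A.map (h1_m d n) : Finset (UB.Mk d)) : Set (UB.Mk d)) (h1_e d n v) = 0 := by
        unfold UB.mk
        simp
      rw [hmk, add_zero]
      exact h1_nb_le S _ (fun y hy => hy) v

/-- the probability of percolation is at least the probability of filling -/
theorem perc_ge {d n r : ℕ} {p : ℝ} (hp0 : 0 ≤ p) (hp1 : p ≤ 1) :
    UB.Q d r 0 n p ≤ ∑ A : Finset (Fin d → Fin n),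
      (if PercR d n r A then p ^ A.card * (1 - p) ^ (Fintype.card (Fin d → Fin n) - A.card) else 0) := by
  unfold UB.Q BTP.Pr
  have hcard : (UB.mks (UB.cube d n) 0).card = Fintype.card (Fin d → Fin n) := by
    rw [← h1_map_univ, Finset.card_map, Finset.card_univ]
  rw [hcard, ← Finset.sum_filter]
  have h1 : ∑ A ∈ (Finset.univ.filter (fun A => PercR d n r A)),
        p ^ A.card * (1 - p) ^ (Fintype.card (Fin d → Fin n) - A.card) =
      ∑ U ∈ (Finset.univ.filter (fun A => PercR d n r A)).map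
          (Finset.mapEmbedding (h1_m d n)).toEmbedding,
        p ^ U.card * (1 - p) ^ (Fintype.card (Fin d → Fin n) - U.card) := by
    rw [Finset.sum_map]
    apply Finset.sum_congr rfl
    intro A _
    simp only [RelEmbedding.coe_toEmbedding, Finset.mapEmbedding_apply, Finset.card_map]
  rw [h1]
  apply Finset.sum_le_sum_of_subset_of_nonneg
  · intro U hU
    rw [Finset.mem_filter, Finset.mem_powerset, ← h1_map_univ] at hU
    obtain ⟨A, _, rfl⟩ := Finset.subset_map_iff.mp hU.1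
    rw [Finset.mem_map]
    refine ⟨A, ?_, rfl⟩
    rw [Finset.mem_filter]
    exact ⟨Finset.mem_univ _, h1_perc hU.2⟩
  · intro U _ _
    have : 0 ≤ 1 - p := by linarith
    positivity

/-- membership in the frozen set, and the bound for the infimum -/
theorem sInf_le_of_Q {d n r : ℕ} {p : ℝ} (hp0 : 0 ≤ p) (hp1 : p ≤ 1) (h : 1 / 2 ≤ UB.Q d r 0 n p) :
    sInf {p : ℝ | 0 ≤ p ∧ p ≤ 1 ∧ (1:ℝ)/2 ≤ ∑ A : Finset (Fin d → Fin n),
            (if (∀ S : Finset (Fin d → Fin n), A ⊆ S →
                (∀ v : Fin d → Fin n,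
                  r ≤ (Finset.univ.filter (fun u : Fin d → Fin n =>
                    u ∈ S ∧ ∑ i, |((u i : ℕ) : ℤ) - ((v i : ℕ) : ℤ)| = 1)).card → v ∈ S) →
                S = Finset.univ)
            then p ^ A.card * (1 - p) ^ (Fintype.card (Fin d → Fin n) - A.card) else 0)} ≤ p := by
  apply csInf_le
  · exact ⟨0, fun x hx => hx.1⟩
  · refine ⟨hp0, hp1, h.trans ((perc_ge hp0 hp1).trans (le_of_eq ?_))⟩
    unfold PercR
    refine Finset.sum_congr rfl fun A _ => ?_
    congr

end UBT
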