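import Pool.Agent.UB.D0

set_option autoImplicit false

open Filter

/-! # The two bounds for the threshold two (interface between the nucleation part and the induction) -/

namespace UBT

/-- the first bound for the threshold two (crude, every side) -/
def Nuc1 (κ : ℕ) : Prop := ∀ h : ℕ, ∃ C : ℝ, ∀ᶠ A : ℝ in atTop, ∀ N : ℕ, 1 ≤ N →
  Real.exp (-(C * A * Real.log A)) ≤ UB.Q (κ + 1) 2 h N (A⁻¹ ^ κ)

/-- the second bound for the threshold two (with the gain) -/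
def Nuc2 (κ : ℕ) : Prop := ∀ h : ℕ, ∃ c : ℝ, 0 < c ∧ ∃ C : ℝ, ∀ᶠ A : ℝ in atTop, ∀ N : ℕ, C * A ≤ (N : ℝ) →
  Real.exp (-(((κ : ℝ) + 1) * (BTR.lamk κ (h + 1) * A - c * Real.sqrt A))) ≤
    UB.Q (κ + 1) 2 h N (A⁻¹ ^ κ)

end UBT
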