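import Pool.Agent.UBT.G1
import Pool.Agent.UBT.N0
import Pool.Agent.UBT.H1
import Pool.Agent.UBT.F2
import Pool.Agent.BTG.G5

set_option autoImplicit false

open scoped Classical
open Filter

namespace UBT

/-- The upper bound, from the two bounds for the threshold two. -/
theorem upper_of_nuc (hN1 : ∀ κ, 1 ≤ κ → Nuc1 κ) (hN2 : ∀ κ, 1 ≤ κ → Nuc2 κ) {d r : ℕ} (hr : 2 ≤ r)
    (hrd : r ≤ d) : ∃ c : ℝ, 0 < c ∧ ∀ᶠ n : ℕ in atTop,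
      0 < BTR.lamk (d - r + 1) (r - 1) / Real.log^[r-1] (n:ℝ) -
        c / (Real.log^[r-1] (n:ℝ)) ^ ((3:ℝ)/2) ∧
      0 < Real.log^[r-1] (n:ℝ) ∧
      sInf {p : ℝ | 0 ≤ p ∧ p ≤ 1 ∧ (1:ℝ)/2 ≤ ∑ A : Finset (Fin d → Fin n),
            (if (∀ S : Finset (Fin d → Fin n), A ⊆ S →
                (∀ v : Fin d → Fin n,
                  r ≤ (Finset.univ.filter (fun u : Fin d → Fin n =>
                    u ∈ S ∧ ∑ i, |((u i : ℕ) : ℤ) - ((v i : ℕ) : ℤ)| = 1)).card → v ∈ S) →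
                S = Finset.univ)
            then p ^ A.card * (1 - p) ^ (Fintype.card (Fin d → Fin n) - A.card) else 0)}
        ≤ (BTR.lamk (d - r + 1) (r - 1) / Real.log^[r-1] (n:ℝ) -
          c / (Real.log^[r-1] (n:ℝ)) ^ ((3:ℝ)/2)) ^ (d - r + 1) := by
  obtain ⟨j, rfl⟩ : ∃ j, r = j + 2 := ⟨r - 2, by omega⟩
  obtain ⟨κ, hκ⟩ : ∃ κ, κ = d - (j + 2) + 1 := ⟨_, rfl⟩
  have hκ1 : 1 ≤ κ := by omega
  have hd : d = κ + (j + 1) := by omega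
  subst hd
  rw [← hκ]
  have e1 : j + 2 - 1 = j + 1 := rfl
  rw [e1]
  obtain ⟨c, hc, hlev⟩ := QQ_lev (κ := κ) hκ1
    (lam := fun s => if s ≤ 1 then 1 else BTR.lamk κ (s - 1))
    (fun s => by
      by_cases hs : s ≤ 1
      · simp [hs]
      · simp only [hs, if_false]
        exact BTG.lamk_pos _ hκ1)
    (fun h => hN1 κ hκ1 h)
    (fun h => by
      obtain ⟨c, hc, C, hC⟩ := hN2 κ hκ1 h
      refine ⟨c, hc, C, ?_⟩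
      have e2 : ¬ (2 + h ≤ 1) := by omega
      have e3 : 2 + h - 1 = h + 1 := by omega
      simp only [e2, if_false, e3]
      exact hC) j 0
  have e4 : ¬ (j + 2 + 0 ≤ 1) := by omega
  have e5 : j + 2 + 0 - 1 = j + 1 := by omega
  simp only [e4, if_false, e5] at hlev
  have hl : 0 < BTR.lamk κ (j + 1) := BTG.lamk_pos _ hκ1
  obtain ⟨c', hc', hev⟩ := lev_final hl hc hlev
  refine ⟨c', hc', ?_⟩
  filter_upwards [hev, (iter_log_tendsto (j + 1)).eventually_gt_atTop 0] with n hn hL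
  obtain ⟨h0, h1, h2⟩ := hn
  refine ⟨h0, hL, ?_⟩
  apply sInf_le_of_Q (pow_nonneg h0.le _) (pow_le_one₀ h0.le h1.le)
  have h3 : QQ κ (j + 2) 0 n (BTR.lamk κ (j + 1) / Real.log^[j + 1] (n : ℝ) -
        c' / (Real.log^[j + 1] (n : ℝ)) ^ ((3 : ℝ) / 2))⁻¹ =
      UB.Q (κ + (j + 1)) (j + 2) 0 n ((BTR.lamk κ (j + 1) / Real.log^[j + 1] (n : ℝ) -
        c' / (Real.log^[j + 1] (n : ℝ)) ^ ((3 : ℝ) / 2)) ^ κ) := by
    unfold QQ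
    rw [inv_inv]
    rfl
  rw [h3] at h2
  exact h2

/-- Both bounds together, from a lower bound. -/
theorem combine {d r : ℕ} {lam c C : ℝ} (hlam : 0 < lam) (hc : 0 < c) (hC : 0 < C)
    {F : ℕ → ℝ} (hup : ∀ᶠ n : ℕ in atTop,
      0 < lam / Real.log^[r-1] (n:ℝ) - c / (Real.log^[r-1] (n:ℝ)) ^ ((3:ℝ)/2) ∧
      0 < Real.log^[r-1] (n:ℝ) ∧
      F n ≤ (lam / Real.log^[r-1] (n:ℝ) - c / (Real.log^[r-1] (n:ℝ)) ^ ((3:ℝ)/2)) ^ (d - r + 1))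
    (hlow : ∀ᶠ n : ℕ in atTop,
      (lam / Real.log^[r-1] (n:ℝ) - C / (Real.log^[r-1] (n:ℝ)) ^ ((3:ℝ)/2)) ^ (d - r + 1) ≤ F n) :
    ∃ lam c C : ℝ, 0 < lam ∧ 0 < c ∧ c ≤ C ∧ ∃ N : ℕ, ∀ n : ℕ, N ≤ n →
      (lam / Real.log^[r-1] (n:ℝ) - C / (Real.log^[r-1] (n:ℝ)) ^ ((3:ℝ)/2)) ^ (d - r + 1) ≤ F n ∧
      F n ≤ (lam / Real.log^[r-1] (n:ℝ) - c / (Real.log^[r-1] (n:ℝ)) ^ ((3:ℝ)/2)) ^ (d - r + 1) := by
  refine ⟨lam, min c C, C, hlam, lt_min hc hC, min_le_right _ _, ?_⟩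
  obtain ⟨N, hN⟩ := eventually_atTop.mp (hup.and hlow)
  refine ⟨N, fun n hn => ?_⟩
  obtain ⟨⟨h0, hL, h1⟩, h2⟩ := hN n hn
  refine ⟨h2, h1.trans ?_⟩
  apply pow_le_pow_left₀ h0.le
  have h3 : 0 < (Real.log^[r-1] (n:ℝ)) ^ ((3:ℝ)/2) := Real.rpow_pos_of_pos hL _
  have h4 : min c C / (Real.log^[r-1] (n:ℝ)) ^ ((3:ℝ)/2) ≤ c / (Real.log^[r-1] (n:ℝ)) ^ ((3:ℝ)/2) :=
    div_le_div_of_nonneg_right (min_le_left _ _) h3.le
  linarith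

end UBT
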