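import Pool.Agent.UBT.D0

set_option autoImplicit false

open Filter

namespace UBT

theorem tow_zero (x : ℝ) : tow 0 x = x := rfl

theorem tow_succ (j : ℕ) (x : ℝ) : tow (j + 1) x = Real.exp (tow j x) :=
  Function.iterate_succ_apply' _ _ _

theorem tow_succ' (j : ℕ) (x : ℝ) : tow (j + 1) x = tow j (Real.exp x) :=
  Function.iterate_succ_apply _ _ _

theorem tow_mono (j : ℕ) {x y : ℝ} (h : x ≤ y) : tow j x ≤ tow j y := by
  induction j with
  | zero => exact h
  | succ j ih => rw [tow_succ, tow_succ]; exact Real.exp_le_exp.mpr ih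

theorem tow_lt_succ (j : ℕ) (x : ℝ) : tow j x + 1 ≤ tow (j + 1) x := by
  rw [tow_succ]; exact Real.add_one_le_exp _

theorem tow_le_succ (j : ℕ) (x : ℝ) : tow j x ≤ tow (j + 1) x := by
  have := tow_lt_succ j x
  linarith

theorem le_tow (j : ℕ) (x : ℝ) : x ≤ tow j x := by
  induction j with
  | zero => exact le_rfl
  | succ j ih => exact ih.trans (tow_le_succ j x)

theorem tow_succ_pos (j : ℕ) (x : ℝ) : 0 < tow (j + 1) x := by
  rw [tow_succ]; exact Real.exp_pos _

theorem log_tow_succ (j : ℕ) (x : ℝ) : Real.log (tow (j + 1) x) = tow j x := by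
  rw [tow_succ, Real.log_exp]

/-- `l A - c √A → ∞` -/
theorem XX_tendsto {l c : ℝ} (hl : 0 < l) : Tendsto (XX l c) atTop atTop := by
  have h1 : Tendsto (fun A : ℝ => Real.sqrt A * (l * Real.sqrt A - c)) atTop atTop := by
    apply Filter.Tendsto.atTop_mul_atTop₀ Real.tendsto_sqrt_atTop
    exact tendsto_atTop_add_const_right _ _ (Real.tendsto_sqrt_atTop.const_mul_atTop hl)
  refine h1.congr' ?_
  filter_upwards [eventually_ge_atTop (0 : ℝ)] with A hA
  have h := Real.mul_self_sqrt hA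
  unfold XX
  nlinarith [h]

/-- every tower tends to infinity along `X` -/
theorem tow_XX_tendsto (j : ℕ) {l c : ℝ} (hl : 0 < l) :
    Tendsto (fun A => tow j (XX l c A)) atTop atTop :=
  tendsto_atTop_mono (fun _ => le_tow j _) (XX_tendsto hl)

/-- `l A / 2 ≤ X` for large `A` -/
theorem XX_ge {l c : ℝ} (hl : 0 < l) : ∀ᶠ A : ℝ in atTop, l / 2 * A ≤ XX l c A := by
  filter_upwards [(XX_tendsto (l := l / 2) (c := c) (half_pos hl)).eventually_ge_atTop 0] with A hA
  unfold XX at hA ⊢
  linarith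

theorem XX_le {l c A : ℝ} (hc : 0 ≤ c) : XX l c A ≤ l * A := by
  unfold XX
  have := mul_nonneg hc (Real.sqrt_nonneg A)
  linarith

end UBT
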