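import Pool.Agent.UBT.T1

set_option autoImplicit false

open Filter

namespace UBT

theorem ubtt2_log (m : ℕ) (l : ℝ) {e : ℝ} (he : 0 < e) :
    ∀ᶠ A : ℝ in atTop, 2 * (m : ℝ) * Real.log A + m * Real.log l ≤ e * Real.sqrt A := by
  have h1 : Tendsto (fun A : ℝ => Real.sqrt (Real.sqrt A)) atTop atTop :=
    Real.tendsto_sqrt_atTop.comp Real.tendsto_sqrt_atTop
  filter_upwards [h1.eventually_ge_atTop ((8 * (m : ℝ) + |(m : ℝ) * Real.log l|) / e + 1),
    eventually_ge_atTop (1 : ℝ)] with A hA hA1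
  set B := Real.sqrt (Real.sqrt A) with hB
  have hm : (0 : ℝ) ≤ 8 * (m : ℝ) + |(m : ℝ) * Real.log l| :=
    add_nonneg (by positivity) (abs_nonneg _)
  have hB1 : 1 ≤ B := by
    have := div_nonneg hm he.le
    linarith
  have h2 : 8 * (m : ℝ) + |(m : ℝ) * Real.log l| ≤ e * B := by
    have h3 : (8 * (m : ℝ) + |(m : ℝ) * Real.log l|) / e ≤ B := by linarith
    rw [div_le_iff₀ he] at h3
    linarith
  have h4 : Real.log A = 4 * Real.log B := by
    rw [hB, Real.log_sqrt (Real.sqrt_nonneg A), Real.log_sqrt (by linarith)]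
    ring
  have h5 : Real.sqrt A = B * B := by
    rw [hB]
    exact (Real.mul_self_sqrt (Real.sqrt_nonneg A)).symm
  have h6 : Real.log B ≤ B := Real.log_le_self (by linarith)
  have h7 : (m : ℝ) * Real.log l ≤ |(m : ℝ) * Real.log l| := le_abs_self _
  have h8 : |(m : ℝ) * Real.log l| ≤ |(m : ℝ) * Real.log l| * B :=
    le_mul_of_one_le_right (abs_nonneg _) hB1
  have h9 : (m : ℝ) * Real.log B ≤ m * B := mul_le_mul_of_nonneg_left h6 (Nat.cast_nonneg m)
  have h10 : (8 * (m : ℝ) + |(m : ℝ) * Real.log l|) * B ≤ e * B * B :=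
    mul_le_mul_of_nonneg_right h2 (by linarith)
  rw [h4, h5]
  linarith

theorem ubtt2_claim {l c c' : ℝ} (hl : 0 < l) (hc' : 0 ≤ c') (hc : c' < c) (j : ℕ) :
    ∀ m : ℕ, ∀ᶠ A : ℝ in atTop,
      (m : ℝ) * Real.log A + tow j (XX l c A) + m * Real.log (tow j (XX l c A)) ≤
        tow j (XX l c' A) := by
  induction j with
  | zero =>
    intro m
    filter_upwards [ubtt2_log m l (sub_pos.2 hc), eventually_ge_atTop (1 : ℝ),
      (tow_XX_tendsto 0 (c := c) hl).eventually_ge_atTop 1] with A h1 hA hy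
    rw [tow_zero] at hy
    rw [tow_zero, tow_zero]
    have h2 : XX l c A ≤ l * A := XX_le (hc'.trans hc.le)
    have h3 : Real.log (XX l c A) ≤ Real.log l + Real.log A := by
      rw [← Real.log_mul hl.ne' (by linarith)]
      exact Real.log_le_log (by linarith) h2
    have h4 : (m : ℝ) * Real.log (XX l c A) ≤ m * (Real.log l + Real.log A) :=
      mul_le_mul_of_nonneg_left h3 (Nat.cast_nonneg m)
    have h5 : XX l c' A = XX l c A + (c - c') * Real.sqrt A := by
      unfold XX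
      ring
    rw [h5]
    linarith
  | succ j ih =>
    intro m
    filter_upwards [ih 2, eventually_ge_atTop (1 : ℝ), eventually_ge_atTop (2 * (m : ℝ) + 1),
      (tow_XX_tendsto j (c := c) hl).eventually_ge_atTop 1] with A h1 hA hAm hy
    rw [log_tow_succ]
    set y := tow j (XX l c A) with hyd
    have hA0 : 0 < A := by linarith
    have hE : 1 ≤ tow (j + 1) (XX l c A) := by
      have := tow_le_succ j (XX l c A)
      linarith
    have hyE : y ≤ tow (j + 1) (XX l c A) := tow_le_succ j (XX l c A)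
    set Y := tow (j + 1) (XX l c A) with hY
    have hYe : Y = Real.exp y := by rw [hY, tow_succ]
    have h2 : 2 * Real.log A + y ≤ tow j (XX l c' A) := by
      have := Real.log_nonneg hy
      push_cast at h1
      linarith
    have h3 : A ^ 2 * Y ≤ tow (j + 1) (XX l c' A) := by
      rw [tow_succ j (XX l c' A)]
      refine le_trans (le_of_eq ?_) (Real.exp_le_exp.2 h2)
      rw [Real.exp_add, ← hYe, two_mul, Real.exp_add, Real.exp_log hA0]
      ring
    have h4 : Real.log A ≤ A := Real.log_le_self hA0.le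
    have h5 : A ≤ A * Y := le_mul_of_one_le_right hA0.le hE
    have h6 : Y ≤ A * Y := le_mul_of_one_le_left (by linarith) hA
    have h7 : (m : ℝ) * Real.log A ≤ m * (A * Y) :=
      mul_le_mul_of_nonneg_left (h4.trans h5) (Nat.cast_nonneg m)
    have h8 : (m : ℝ) * y ≤ m * (A * Y) :=
      mul_le_mul_of_nonneg_left (hyE.trans h6) (Nat.cast_nonneg m)
    have h9 : (2 * (m : ℝ) + 1) * (A * Y) ≤ A * (A * Y) :=
      mul_le_mul_of_nonneg_right hAm (by positivity)
    have h10 : A * (A * Y) = A ^ 2 * Y := by ring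
    linarith

/-- [UBT-T2] absorption of polynomial factors by the change of `c`.
PROOF. Write `y_j = tow j (XX l c A)`, `z_j = tow j (XX l c' A)`, `δ = (c - c') √A`, so `XX l c' A = XX l c A + δ`
(unfold `XX`, ring). All `y_j → ∞` (`tow_XX_tendsto`).
CLAIM: for every `j`, for every `m : ℕ`, eventually `m log A + y_j + m log y_j ≤ z_j` (and `1 ≤ y_j`, `1 ≤ A`).
`j = 0`: `y_0 ≤ l A` (`XX_le`, as `0 ≤ c' < c`), so `m log A + m log y_0 ≤ 2 m log A + m log l`, which is
eventually `≤ (c - c') √A` : `log A =o √A` (e.g. `Real.isLittleO_log_rpow_atTop` or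
`Real.log_le_sub_one_of_pos` applied to `A^(1/4)`; `Real.log x ≤ x^ε/ε` is `Real.log_le_rpow_div`), and
`m log l ≤ (c-c')/2 √A` eventually.
`j → j + 1`: use the claim at `j` with exponent `2`: `z_j ≥ 2 log A + y_j + 2 log y_j ≥ 2 log A + y_j`,
so `z_{j+1} = exp z_j ≥ A^2 exp y_j = A^2 y_{j+1}`. And
`m log A + y_{j+1} + m log y_{j+1} = m log A + y_{j+1} + m y_j ≤ (2 m + 1) A y_{j+1} ≤ A^2 y_{j+1}` as soon as
`A ≥ 2 m + 1` (use `log A ≤ A`, `y_j ≤ y_{j+1}`, `1 ≤ y_{j+1}`, `1 ≤ A`).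
Conclusion: exponentiate the claim: `z_{j+1} = exp z_j ≥ exp (m log A + y_j + m log y_j) = A^m y_{j+1} y_j^m`
(`Real.exp_add`, `Real.exp_nat_mul`, `Real.exp_log`). -/
theorem tow_absorb (j m : ℕ) {l c c' : ℝ} (hl : 0 < l) (hc' : 0 ≤ c') (hc : c' < c) :
    ∀ᶠ A : ℝ in atTop,
      A ^ m * tow (j + 1) (XX l c A) * (tow j (XX l c A)) ^ m ≤ tow (j + 1) (XX l c' A) := by
  filter_upwards [ubtt2_claim hl hc' hc j m, eventually_ge_atTop (1 : ℝ),
    (tow_XX_tendsto j (c := c) hl).eventually_ge_atTop 1] with A h1 hA hy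
  have hA0 : 0 < A := by linarith
  have hy0 : 0 < tow j (XX l c A) := by linarith
  rw [tow_succ j (XX l c' A)]
  refine le_trans (le_of_eq ?_) (Real.exp_le_exp.2 h1)
  rw [Real.exp_add, Real.exp_add, Real.exp_nat_mul, Real.exp_nat_mul, Real.exp_log hA0,
    Real.exp_log hy0, tow_succ]

end UBT
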