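import Pool.Agent.UBT.T1

set_option autoImplicit false

open Filter

namespace UBT

/-- [UBT-T3] a tower of height `j` is dominated by any tower of height `j + 1`, whatever the constants.
PROOF. Induction on `j`, for all `m`. Write `y_j = tow j (XX l0 c0 A)`, `z_j = tow j (XX l c A)`.
`j = 0`: `y_0 ≤ l0 A` (`XX_le`), `0 ≤ y_0` eventually, so `A^m y_0^m ≤ l0^m A^(2m)`, and
`z_1 = exp (XX l c A) ≥ exp (l/2 A)` eventually (`XX_ge`); `exp (l/2 A)` dominates `l0^m A^(2m)`
(e.g. `Real.tendsto_pow_mul_exp_neg_atTop_nhds_zero` or `isLittleO_pow_exp_pos_mul_atTop`).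
`j → j + 1`: `A^m y_{j+1}^m = exp (m log A + m y_j)` (`tow_succ`, `Real.exp_nat_mul`, `Real.exp_log`) and
`z_{j+2} = exp z_{j+1}`, so it suffices that `m log A + m y_j ≤ z_{j+1}`. As `log A ≤ A`, and eventually
`1 ≤ A`, `1 ≤ y_j`: `m log A + m y_j ≤ 2 m A y_j ≤ (A y_j)^2 = A^2 y_j^2` when `2 m ≤ A`, and
`A^2 y_j^2 ≤ z_{j+1}` eventually, by the induction hypothesis with exponent `2`. -/
theorem tow_dom (j m : ℕ) {l0 c0 l c : ℝ} (hl0 : 0 < l0) (hc0 : 0 ≤ c0) (hl : 0 < l) :
    ∀ᶠ A : ℝ in atTop, A ^ m * (tow j (XX l0 c0 A)) ^ m ≤ tow (j + 1) (XX l c A) := by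
  induction j generalizing m with
  | zero =>
    have hb : 0 < l / 2 := half_pos hl
    have ho := (isLittleO_pow_exp_pos_mul_atTop (k := 2 * m) hb).def (c := (l0 ^ m)⁻¹)
      (inv_pos.2 (pow_pos hl0 m))
    filter_upwards [ho, XX_ge (c := c) hl, (XX_tendsto (c := c0) hl0).eventually_ge_atTop 0,
      eventually_ge_atTop (0 : ℝ)] with A h1 h2 h3 h4
    rw [tow_succ, tow_zero, tow_zero]
    have h5 : XX l0 c0 A ≤ l0 * A := by
      unfold XX
      have := mul_nonneg hc0 (Real.sqrt_nonneg A)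
      linarith
    rw [Real.norm_of_nonneg (pow_nonneg h4 _), Real.norm_of_nonneg (Real.exp_pos _).le] at h1
    calc A ^ m * XX l0 c0 A ^ m ≤ A ^ m * (l0 * A) ^ m := by
          gcongr
      _ = l0 ^ m * A ^ (2 * m) := by
          rw [mul_pow, two_mul, pow_add]
          ring
      _ ≤ l0 ^ m * ((l0 ^ m)⁻¹ * Real.exp (l / 2 * A)) := by
          gcongr
      _ = Real.exp (l / 2 * A) := by
          rw [← mul_assoc, mul_inv_cancel₀ (pow_pos hl0 m).ne', one_mul]
      _ ≤ Real.exp (XX l c A) := Real.exp_le_exp.2 h2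
  | succ j ih =>
    filter_upwards [ih 2, eventually_ge_atTop (1 : ℝ), eventually_ge_atTop (2 * (m : ℝ)),
      (tow_XX_tendsto j (c := c0) hl0).eventually_ge_atTop 1] with A h1 h2 h3 h4
    rw [tow_succ (j + 1), tow_succ j]
    set y := tow j (XX l0 c0 A) with hy
    have h5 : A ≤ Real.exp A := by
      have := Real.add_one_le_exp A
      linarith
    have hA0 : 0 ≤ A := by linarith
    have hm0 : (0 : ℝ) ≤ m := Nat.cast_nonneg m
    have hAy : A ≤ A * y := le_mul_of_one_le_right hA0 h4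
    have hyA : y ≤ A * y := le_mul_of_one_le_left (by linarith) h2
    have h6 : (m : ℝ) * A + m * y ≤ A ^ 2 * y ^ 2 := by
      have h7 : (m : ℝ) * A + m * y ≤ 2 * m * (A * y) := by
        nlinarith [mul_le_mul_of_nonneg_left hAy hm0, mul_le_mul_of_nonneg_left hyA hm0]
      have h8 : 2 * (m : ℝ) * (A * y) ≤ (A * y) * (A * y) :=
        mul_le_mul_of_nonneg_right (h3.trans hAy) (by linarith)
      calc (m : ℝ) * A + m * y ≤ (A * y) * (A * y) := h7.trans h8
        _ = A ^ 2 * y ^ 2 := by ring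
    calc A ^ m * Real.exp y ^ m ≤ Real.exp A ^ m * Real.exp y ^ m := by
          gcongr
      _ = Real.exp (m * A + m * y) := by
          rw [Real.exp_add, Real.exp_nat_mul, Real.exp_nat_mul]
      _ ≤ Real.exp (tow (j + 1) (XX l c A)) := Real.exp_le_exp.2 (h6.trans h1)

end UBT
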