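import Mathlib

set_option autoImplicit false

open Filter

namespace UBT

theorem ubtt4_exp {t : ℝ} (h0 : 0 ≤ t) (h1 : t ≤ 1 / 2) : Real.exp (-(2 * t)) ≤ 1 - t := by
  have h2 : 1 + 2 * t ≤ Real.exp (2 * t) := by
    have := Real.add_one_le_exp (2 * t)
    linarith
  rw [Real.exp_neg, inv_le_comm₀ (Real.exp_pos _) (by linarith)]
  refine le_trans ?_ h2
  rw [inv_le_iff_one_le_mul₀ (by linarith)]
  nlinarith

theorem ubtt4_sum (T : ℝ) (hT : 2 ≤ T) (M : ℕ) :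
    ∑ a ∈ Finset.Icc 1 M, (if (a : ℝ) < T then (0 : ℝ) else 2 / (a : ℝ) ^ 2) ≤
      4 - 4 / ((M : ℝ) + 1) := by
  induction M with
  | zero => simp
  | succ M ih =>
    rw [Finset.sum_Icc_succ_top (by omega)]
    have h1 : (if ((M + 1 : ℕ) : ℝ) < T then (0 : ℝ) else 2 / ((M + 1 : ℕ) : ℝ) ^ 2) ≤
        2 / ((M : ℝ) + 1) ^ 2 := by
      split_ifs
      · positivity
      · push_cast; exact le_rfl
    have h2 : 2 / ((M : ℝ) + 1) ^ 2 ≤ 4 / ((M : ℝ) + 1) - 4 / ((M : ℝ) + 2) := by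
      have hM : (0 : ℝ) ≤ M := Nat.cast_nonneg M
      rw [div_sub_div _ _ (by positivity) (by positivity), div_le_div_iff₀ (by positivity) (by positivity)]
      nlinarith [mul_nonneg hM (sq_nonneg ((M : ℝ) + 1)), sq_nonneg ((M : ℝ) + 1)]
    have h3 : ((M + 1 : ℕ) : ℝ) + 1 = (M : ℝ) + 2 := by push_cast; ring
    rw [h3]
    linarith

theorem ubtt4_card (T : ℝ) (hT : 0 ≤ T) (M : ℕ) :
    (((Finset.Icc 1 M).filter (fun a : ℕ => (a : ℝ) < T)).card : ℝ) ≤ T := by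
  have h1 : ((Finset.Icc 1 M).filter (fun a : ℕ => (a : ℝ) < T)) ⊆ Finset.Icc 1 ⌊T⌋₊ := by
    intro a ha
    rw [Finset.mem_filter, Finset.mem_Icc] at ha
    rw [Finset.mem_Icc]
    exact ⟨ha.1.1, Nat.le_floor ha.2.le⟩
  have h2 := Finset.card_le_card h1
  rw [Nat.card_Icc, Nat.add_sub_cancel] at h2
  exact le_trans (by exact_mod_cast h2) (Nat.floor_le hT)

/-- [UBT-T4] lower bound for a product of probabilities which are `≥ e^(-y)` and, from `T` on, `≥ 1 - 1/a²`.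
PROOF. For each `a ∈ Icc 1 M` put `e_a = y` if `(a:ℝ) < T` and `e_a = 2/a^2` if `T ≤ a`. Then `q a ≥ exp (-e_a)`:
first case `h1`; second case: `a ≥ 2`, `x := 1 - q a ≤ 1/a^2 ≤ 1/4` (`h2`), and `exp (-2/a^2) ≤ 1 - 1/a^2`,
since `exp (-2 t) ≤ 1 - t` for `0 ≤ t ≤ 1/2`: (`1/(1-t) ≤ 1 + 2 t ≤ exp (2 t)`, `Real.add_one_le_exp`).
So `∏ q a ≥ ∏ exp (-e_a) = exp (-∑ e_a)` (`Finset.prod_le_prod`, `Real.exp_sum`).
`∑ e_a ≤ ∑_{a ∈ Icc 1 M, a < T} y + ∑_{a ∈ Icc 2 M} 2/a^2`. The number of `a ≥ 1` with `(a:ℝ) < T` is at most `T`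
(they are in `Finset.Icc 1 ⌊T⌋₊`, card `⌊T⌋₊ ≤ T`), so the first sum is `≤ T y`. The second is `≤ 2`, by induction on
`M`: `∑_{a ∈ Icc 2 M} 2/a^2 ≤ 2 - 2/M` for `M ≥ 1` (`2/(M+1)^2 ≤ 2/M - 2/(M+1)`); in any case `≤ 4`. -/
theorem prod_lower {q : ℕ → ℝ} {T y : ℝ} (hT : 2 ≤ T) (hy : 0 ≤ y)
    (h1 : ∀ a : ℕ, 1 ≤ a → Real.exp (-y) ≤ q a)
    (h2 : ∀ a : ℕ, T ≤ (a : ℝ) → (1 - q a) * (a : ℝ) ^ 2 ≤ 1) (M : ℕ) :
    Real.exp (-(T * y + 4)) ≤ ∏ a ∈ Finset.Icc 1 M, q a := by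
  have hT0 : 0 ≤ T := by linarith
  have key : ∀ a ∈ Finset.Icc 1 M,
      Real.exp (-((if (a : ℝ) < T then y else 0) + (if (a : ℝ) < T then (0 : ℝ) else 2 / (a : ℝ) ^ 2)))
        ≤ q a := by
    intro a ha
    rw [Finset.mem_Icc] at ha
    by_cases hlt : (a : ℝ) < T
    · rw [if_pos hlt, if_pos hlt, add_zero]
      exact h1 a ha.1
    · rw [if_neg hlt, if_neg hlt, zero_add]
      push Not at hlt
      have ha2 : (2 : ℝ) ≤ a := hT.trans hlt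
      have hpos : (0 : ℝ) < (a : ℝ) ^ 2 := by positivity
      have h3 : 1 - q a ≤ 1 / (a : ℝ) ^ 2 := by
        rw [le_div_iff₀ hpos]; exact h2 a hlt
      have h4 : 1 / (a : ℝ) ^ 2 ≤ 1 / 2 := by
        rw [div_le_div_iff₀ hpos (by norm_num)]
        nlinarith
      have h5 := ubtt4_exp (t := 1 / (a : ℝ) ^ 2) (by positivity) h4
      have h6 : 2 / (a : ℝ) ^ 2 = 2 * (1 / (a : ℝ) ^ 2) := by ring
      rw [h6]
      linarith
  have h3 := Finset.prod_le_prod (fun a _ => (Real.exp_pos _).le) key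
  rw [← Real.exp_sum] at h3
  refine le_trans ?_ h3
  rw [Real.exp_le_exp, Finset.sum_neg_distrib, neg_le_neg_iff, Finset.sum_add_distrib]
  have h4 : ∑ a ∈ Finset.Icc 1 M, (if (a : ℝ) < T then y else 0) ≤ T * y := by
    rw [← Finset.sum_filter, Finset.sum_const, nsmul_eq_mul]
    exact mul_le_mul_of_nonneg_right (ubtt4_card T hT0 M) hy
  have h5 := ubtt4_sum T hT M
  have h6 : 0 ≤ 4 / ((M : ℝ) + 1) := by positivity
  linarith

end UBT
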