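import Mathlib

set_option autoImplicit false

open Filter

namespace UBT

theorem ubtt5_sqrt {N : ℕ} (hN : 16 ≤ N) :
    4 ≤ Nat.sqrt N ∧ Nat.sqrt N ≤ N ∧ Nat.sqrt N * Nat.sqrt N ≤ N ∧
      Real.sqrt N / 2 ≤ (Nat.sqrt N : ℝ) ∧ 4 ≤ Real.sqrt N := by
  have h1 : 4 ≤ Nat.sqrt N := by rw [Nat.le_sqrt]; omega
  have h2 : Nat.sqrt N * Nat.sqrt N ≤ N := Nat.sqrt_le N
  have h3 : N < (Nat.sqrt N + 1) * (Nat.sqrt N + 1) := Nat.lt_succ_sqrt N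
  have h4 : 4 ≤ Real.sqrt N := by
    apply Real.le_sqrt_of_sq_le
    have : ((16 : ℕ) : ℝ) ≤ N := by exact_mod_cast hN
    push_cast at this
    linarith
  have h5 : Real.sqrt N < (Nat.sqrt N : ℝ) + 1 := by
    rw [Real.sqrt_lt' (by positivity)]
    have : ((N : ℕ) : ℝ) < (((Nat.sqrt N + 1) * (Nat.sqrt N + 1) : ℕ) : ℝ) := by exact_mod_cast h3
    push_cast at this
    nlinarith
  refine ⟨h1, Nat.sqrt_le_self N, h2, ?_, h4⟩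
  linarith

theorem ubtt5_second {D m : ℕ} {N : ℕ} (hN : 16 ≤ N) {x : ℝ}
    (hx : x * (Nat.sqrt N : ℝ) ^ (2 * D + 2 * m + 4) ≤ 1)
    (hbig : 2 * D * 2 ^ (2 * D + 2 * m + 4) ≤ (N : ℝ)) :
    D * (N : ℝ) ^ D * x * (N : ℝ) ^ m ≤ 1 / 2 := by
  obtain ⟨hb4, -, -, hb, hs⟩ := ubtt5_sqrt hN
  have hNpos : (0 : ℝ) < N := by
    have : 0 < N := by omega
    exact_mod_cast this
  have hN1 : (1 : ℝ) ≤ N := by
    have : 1 ≤ N := by omega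
    exact_mod_cast this
  have hsq : Real.sqrt N ^ 2 = N := Real.sq_sqrt hNpos.le
  have hbpos : (0 : ℝ) < (Nat.sqrt N : ℝ) ^ (2 * D + 2 * m + 4) := by
    have : (0 : ℝ) < (Nat.sqrt N : ℝ) := by
      have : 0 < Nat.sqrt N := by omega
      exact_mod_cast this
    positivity
  have h1 : (N : ℝ) ^ (D + m + 2) / 2 ^ (2 * D + 2 * m + 4) ≤
      (Nat.sqrt N : ℝ) ^ (2 * D + 2 * m + 4) := by
    have h2 : (Real.sqrt N / 2) ^ (2 * D + 2 * m + 4) ≤ (Nat.sqrt N : ℝ) ^ (2 * D + 2 * m + 4) :=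
      pow_le_pow_left₀ (by positivity) hb _
    rw [div_pow] at h2
    have h3 : 2 * D + 2 * m + 4 = 2 * (D + m + 2) := by ring
    have h4 : Real.sqrt N ^ (2 * D + 2 * m + 4) = (N : ℝ) ^ (D + m + 2) := by
      rw [h3, pow_mul, hsq]
    rw [h4] at h2
    exact h2
  have h5 : x ≤ 2 ^ (2 * D + 2 * m + 4) / (N : ℝ) ^ (D + m + 2) := by
    have h6 : x ≤ 1 / (Nat.sqrt N : ℝ) ^ (2 * D + 2 * m + 4) := by
      rw [le_div_iff₀ hbpos]; exact hx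
    refine h6.trans ?_
    rw [div_le_div_iff₀ hbpos (by positivity), one_mul]
    rw [div_le_iff₀ (by positivity)] at h1
    linarith
  have h7 : D * (N : ℝ) ^ D * x * (N : ℝ) ^ m ≤
      D * (N : ℝ) ^ D * (2 ^ (2 * D + 2 * m + 4) / (N : ℝ) ^ (D + m + 2)) * (N : ℝ) ^ m := by
    apply mul_le_mul_of_nonneg_right _ (by positivity)
    exact mul_le_mul_of_nonneg_left h5 (by positivity)
  refine h7.trans ?_
  have h8 : D * (N : ℝ) ^ D * (2 ^ (2 * D + 2 * m + 4) / (N : ℝ) ^ (D + m + 2)) * (N : ℝ) ^ m =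
      (D * 2 ^ (2 * D + 2 * m + 4)) / (N : ℝ) ^ 2 := by
    field_simp
    ring
  rw [h8, div_le_div_iff₀ (by positivity) (by norm_num)]
  nlinarith

theorem ubtt5_first {m : ℕ} {N : ℕ} (hN : 16 ≤ N) {S : ℝ} (hS : Real.exp (8 * S) ≤ (N : ℝ))
    (hbig : Real.exp (29 * ((m : ℝ) + 1)) ≤ (N : ℝ)) :
    Real.exp (-((Nat.sqrt N : ℝ) * Real.exp (-S))) * (N : ℝ) ^ m ≤ 1 / 2 := by
  obtain ⟨hb4, -, -, hb, hs⟩ := ubtt5_sqrt hN
  have hNpos : (0 : ℝ) < N := by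
    have : 0 < N := by omega
    exact_mod_cast this
  set t := Real.log N with ht
  have hNt : (N : ℝ) = Real.exp t := (Real.exp_log hNpos).symm
  have h1 : 8 * S ≤ t := by
    rw [hNt] at hS; exact Real.exp_le_exp.1 hS
  have h2 : 29 * ((m : ℝ) + 1) ≤ t := by
    rw [hNt] at hbig; exact Real.exp_le_exp.1 hbig
  have hm : (0 : ℝ) ≤ m := Nat.cast_nonneg m
  have hsq : Real.sqrt N = Real.exp (t / 2) := by
    rw [hNt, Real.exp_half]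
  have h3 : Real.exp (3 * t / 8) / 2 ≤ (Nat.sqrt N : ℝ) * Real.exp (-S) := by
    have h4 : Real.exp (-(t / 8)) ≤ Real.exp (-S) := by
      apply Real.exp_le_exp.2; linarith
    have h5 : Real.exp (t / 2) / 2 ≤ (Nat.sqrt N : ℝ) := by rw [← hsq]; exact hb
    calc Real.exp (3 * t / 8) / 2 = (Real.exp (t / 2) / 2) * Real.exp (-(t / 8)) := by
          rw [div_mul_eq_mul_div, ← Real.exp_add]; congr 2; ring
      _ ≤ (Nat.sqrt N : ℝ) * Real.exp (-S) :=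
          mul_le_mul h5 h4 (Real.exp_pos _).le (by positivity)
  have h6 : (m : ℝ) * t + 1 ≤ Real.exp (3 * t / 8) / 2 := by
    have h7 := Real.quadratic_le_exp_of_nonneg (x := 3 * t / 8) (by linarith)
    nlinarith
  have h8 : (N : ℝ) ^ m = Real.exp (m * t) := by
    rw [Real.exp_nat_mul, ← hNt]
  rw [h8, ← Real.exp_add]
  have h9 : Real.exp (-((Nat.sqrt N : ℝ) * Real.exp (-S)) + m * t) ≤ Real.exp (-1) := by
    apply Real.exp_le_exp.2; linarith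
  refine h9.trans ?_
  have := Real.exp_neg_one_lt_d9
  norm_num at this ⊢
  linarith

/-- [UBT-T5] many trials with cubes of side `√N`.
PROOF. Fix `m' = 2 D + 2 m + 4`. Let `b = Nat.sqrt N`: `b^2 ≤ N < (b+1)^2` (`Nat.sqrt_le'`, `Nat.lt_succ_sqrt'`), for `N ≥ 16`: `4 ≤ b`,
`b ≤ N`, and `√N < b + 1` gives `√N / 2 ≤ √N - 1 ≤ b`. `T0 ≤ √N/2 ≤ b` from `4 T0^2 ≤ N`. `b ≤ N / b` (`Nat.le_div_iff_mul_le`),
so `b ≤ b^D ≤ (N/b)^D` (`1 ≤ D`).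
First term: `0 ≤ 1 - Q b ≤ 1 - exp (-S) ≤ exp (-exp (-S))` (`Real.add_one_le_exp`, i.e. `1 - x ≤ exp (-x)`), so
`(1 - Q b)^((N/b)^D) ≤ (1 - Q b)^b ≤ exp (-(b exp (-S)))` (`pow_le_pow_of_le_one`, `Real.exp_nat_mul`). As `exp (8 S) ≤ N`:
`exp (-S) ≥ N^(-1/8)` — to avoid real powers: with `t = log N`, `8 S ≤ t`, `exp (-S) ≥ exp (-t/8)`, `b ≥ √N/2 = exp (t/2)/2`,
`b exp (-S) ≥ exp (3 t/8)/2`. So first term times `N^m` is `≤ exp (m t - exp (3t/8)/2) ≤ 1/2` for `t ≥ t_0(m)`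
(`exp (3t/8)` dominates `2 (m t + 1)`; `exp (-1) ≤ 1/2`).
Second term: `1 - Q0 b ≤ b^(-m')` (from the hypothesis, `b ≥ 1`), `b ≥ √N/2`, so `b^m' ≥ (√N)^m' / 2^m' = N^(D+m+2)/2^m'`
(`(√N)^2 = N`, `m' = 2 (D + m + 2)`), hence
`D N^D (1 - Q0 b) N^m ≤ D N^(D+m) 2^m' / N^(D+m+2) ≤ D 2^m' / N ≤ 1/2` for `N ≥ 2 D 2^m'` (`N ≥ 1`).
`N0 = max` of the finitely many thresholds. -/
theorem many_trials {D : ℕ} (hD : 1 ≤ D) (m : ℕ) : ∃ N0 : ℝ, ∀ (Q Q0 : ℕ → ℝ) (S T0 : ℝ), 0 ≤ T0 →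
    (∀ b : ℕ, 1 ≤ b → Real.exp (-S) ≤ Q b) → (∀ b : ℕ, Q b ≤ 1) →
    (∀ b : ℕ, T0 ≤ (b : ℝ) → (1 - Q0 b) * (b : ℝ) ^ (2 * D + 2 * m + 4) ≤ 1) →
    (∀ b N : ℕ, 1 ≤ b → b ≤ N →
      1 - Q N ≤ (1 - Q b) ^ ((N / b) ^ D) + D * (N : ℝ) ^ D * (1 - Q0 b)) →
    ∀ N : ℕ, N0 ≤ (N : ℝ) → Real.exp (8 * S) ≤ (N : ℝ) → 4 * T0 ^ 2 ≤ (N : ℝ) →
      (1 - Q N) * (N : ℝ) ^ m ≤ 1 := by
  refine ⟨max 16 (max (2 * D * 2 ^ (2 * D + 2 * m + 4)) (Real.exp (29 * ((m : ℝ) + 1)))), ?_⟩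
  intro Q Q0 S T0 hT0 hQ1 hQ2 hQ0 hrec N hN hS hT
  have hN16 : (16 : ℝ) ≤ N := (le_max_left _ _).trans hN
  have hNb : 2 * D * 2 ^ (2 * D + 2 * m + 4) ≤ (N : ℝ) :=
    (le_max_left _ _).trans ((le_max_right _ _).trans hN)
  have hNe : Real.exp (29 * ((m : ℝ) + 1)) ≤ (N : ℝ) :=
    (le_max_right _ _).trans ((le_max_right _ _).trans hN)
  have hN16' : 16 ≤ N := by exact_mod_cast hN16
  obtain ⟨hb4, hbN, hbb, hb, hs⟩ := ubtt5_sqrt hN16'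
  have hb1 : 1 ≤ Nat.sqrt N := by omega
  have hT0b : T0 ≤ (Nat.sqrt N : ℝ) := by
    have : 2 * T0 ≤ Real.sqrt N := by
      apply Real.le_sqrt_of_sq_le
      nlinarith
    linarith
  have h2 := ubtt5_second (D := D) (m := m) hN16' (hQ0 (Nat.sqrt N) hT0b) hNb
  have h1 := ubtt5_first (m := m) hN16' hS hNe
  have hx0 : 0 ≤ 1 - Q (Nat.sqrt N) := by linarith [hQ2 (Nat.sqrt N)]
  have hx1 : 1 - Q (Nat.sqrt N) ≤ 1 := by
    have := hQ1 (Nat.sqrt N) hb1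
    have := Real.exp_pos (-S)
    linarith
  have hx2 : 1 - Q (Nat.sqrt N) ≤ Real.exp (-Real.exp (-S)) := by
    have := hQ1 (Nat.sqrt N) hb1
    have := Real.add_one_le_exp (-Real.exp (-S))
    linarith
  have hle : Nat.sqrt N ≤ (N / Nat.sqrt N) ^ D := by
    have h3 : Nat.sqrt N ≤ N / Nat.sqrt N := by
      rw [Nat.le_div_iff_mul_le (by omega)]
      exact hbb
    calc Nat.sqrt N ≤ N / Nat.sqrt N := h3
      _ = (N / Nat.sqrt N) ^ 1 := (pow_one _).symm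
      _ ≤ (N / Nat.sqrt N) ^ D := Nat.pow_le_pow_right (by omega) hD
  have h3 : (1 - Q (Nat.sqrt N)) ^ ((N / Nat.sqrt N) ^ D) ≤
      Real.exp (-((Nat.sqrt N : ℝ) * Real.exp (-S))) := by
    refine (pow_le_pow_of_le_one hx0 hx1 hle).trans ?_
    refine (pow_le_pow_left₀ hx0 hx2 _).trans ?_
    rw [← Real.exp_nat_mul]
    apply Real.exp_le_exp.2
    linarith
  have h4 := hrec (Nat.sqrt N) N hb1 hbN
  have hNm : (0 : ℝ) ≤ (N : ℝ) ^ m := by positivity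
  calc (1 - Q N) * (N : ℝ) ^ m
      ≤ (Real.exp (-((Nat.sqrt N : ℝ) * Real.exp (-S))) +
          D * (N : ℝ) ^ D * (1 - Q0 (Nat.sqrt N))) * (N : ℝ) ^ m :=
        mul_le_mul_of_nonneg_right (by linarith) hNm
    _ = Real.exp (-((Nat.sqrt N : ℝ) * Real.exp (-S))) * (N : ℝ) ^ m +
          D * (N : ℝ) ^ D * (1 - Q0 (Nat.sqrt N)) * (N : ℝ) ^ m := by ring
    _ ≤ 1 := by linarith

end UBT
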