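import Pool.Agent.UBT.T2
import Pool.Agent.UBT.T3
import Pool.Agent.UBT.T4
import Pool.Agent.UBT.T5

set_option autoImplicit false

open Filter

namespace UBT

/-- the lower bound for all `N ≥ 1` -/
theorem ubtt6_low {Q Q1 Q0 : ℕ → ℝ → ℝ} {κ K : ℕ} {A y T y0 : ℝ} (hA : 1 < A)
    (hT : 2 ≤ T)
    (hR1 : Rec1 Q Q1 Q0 κ K)
    (ha : ∀ N : ℕ, 1 ≤ N → Real.exp (-(y ^ 2)) ≤ Q1 N A)
    (hb : ∀ N : ℕ, T ≤ (N : ℝ) → (1 - Q1 N A) * (N : ℝ) ^ 2 ≤ 1)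
    (hc : ∀ N : ℕ, 1 ≤ N → Real.exp (-(y0 ^ 2)) ≤ Q0 N A) (N : ℕ) (hN : 1 ≤ N) :
    Real.exp (-((κ : ℝ) * A + K * (T * y ^ 2 + 4) + K * y0 ^ 2)) ≤ Q N A := by
  have hA0 : 0 < A := by linarith
  have hκ : Real.exp (-((κ : ℝ) * A)) ≤ A⁻¹ ^ κ := by
    have h1 : Real.exp (-A) ≤ A⁻¹ := by
      rw [Real.exp_neg]
      exact inv_anti₀ hA0 (by linarith [Real.add_one_le_exp A])
    have h2 : Real.exp (-((κ : ℝ) * A)) = Real.exp (-A) ^ κ := by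
      rw [← Real.exp_nat_mul]
      congr 1
      ring
    rw [h2]
    exact pow_le_pow_left₀ (Real.exp_pos _).le h1 κ
  have hK0 : (0 : ℝ) ≤ K := Nat.cast_nonneg K
  have hTy : 0 ≤ T * y ^ 2 := by positivity
  obtain ⟨hR1a, hR1b⟩ := hR1 A hA
  rcases Nat.lt_or_ge 1 N with h | h
  · obtain ⟨N', rfl⟩ : ∃ N', N = N' + 1 := ⟨N - 1, by omega⟩
    have hN' : 1 ≤ N' := by omega
    have h3 := prod_lower (q := fun a => Q1 a A) hT (sq_nonneg y) ha hb (N' - 1)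
    have h4 := hc N' hN'
    have e : Real.exp (-((κ : ℝ) * A + K * (T * y ^ 2 + 4) + K * y0 ^ 2)) =
        Real.exp (-((κ : ℝ) * A)) * Real.exp (-(T * y ^ 2 + 4)) ^ K * Real.exp (-(y0 ^ 2)) ^ K := by
      rw [← Real.exp_nat_mul, ← Real.exp_nat_mul, ← Real.exp_add, ← Real.exp_add]
      congr 1
      ring
    rw [e]
    refine le_trans ?_ (hR1b N' hN')
    have h5 : 0 ≤ A⁻¹ ^ κ := by positivity
    have h6 : 0 ≤ A⁻¹ ^ κ * (∏ a ∈ Finset.Icc 1 (N' - 1), Q1 a A) ^ K :=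
      mul_nonneg h5 (pow_nonneg ((Real.exp_pos _).le.trans h3) _)
    gcongr
  · have hN1 : N = 1 := le_antisymm h hN
    subst hN1
    refine le_trans ?_ (hκ.trans hR1a)
    rw [Real.exp_le_exp]
    have h5 : 0 ≤ (K : ℝ) * (T * y ^ 2 + 4) := mul_nonneg hK0 (by linarith)
    have h6 : 0 ≤ (K : ℝ) * y0 ^ 2 := by positivity
    linarith

/-- the numerical inequality `8 s ≤ S` -/
theorem ubtt6_num {κ K A y T y0 S : ℝ} (hκ : 0 ≤ κ) (hK : 0 ≤ K) (hA1 : 4 ≤ A) (hAκ : 24 * κ ≤ A)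
    (hAK : 120 * K ≤ A) (hy : 1 ≤ y) (hT : 2 ≤ T) (hy0 : 1 ≤ y0)
    (h1 : A ^ 3 * T * y ^ 3 ≤ S) (h2 : A ^ 3 * y0 ^ 3 ≤ S) :
    8 * (κ * A + K * (T * y ^ 2 + 4) + K * y0 ^ 2) ≤ S ∧ 2 + 2 * y0 ≤ S ∧ 1 ≤ S := by
  have hA0 : 0 < A := by linarith
  have hA2 : A ≤ A ^ 2 := by nlinarith
  have hA3 : A ^ 2 ≤ A ^ 3 := by nlinarith [sq_nonneg A]
  have hy3 : 1 ≤ y ^ 3 := one_le_pow₀ hy
  have hy03 : 1 ≤ y0 ^ 3 := one_le_pow₀ hy0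
  have hTy : 2 ≤ T * y ^ 3 := by nlinarith
  have hTy2 : 2 ≤ T * y ^ 2 := by
    have : 1 ≤ y ^ 2 := one_le_pow₀ hy
    nlinarith
  have hA3p : 0 < A ^ 3 := by positivity
  have a1 : 24 * κ * A ≤ S := by
    have h3 : 24 * κ * A ≤ A * A := mul_le_mul_of_nonneg_right hAκ hA0.le
    have h4 : A ^ 3 * 1 ≤ A ^ 3 * (T * y ^ 3) := mul_le_mul_of_nonneg_left (by linarith) hA3p.le
    nlinarith
  have a2 : 24 * (K * (T * y ^ 2 + 4)) ≤ S := by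
    have h3 : 24 * (K * (T * y ^ 2 + 4)) ≤ 120 * K * (T * y ^ 2) := by nlinarith
    have h4 : 120 * K * (T * y ^ 2) ≤ A ^ 3 * (T * y ^ 2) :=
      mul_le_mul_of_nonneg_right (by linarith) (by linarith)
    have h5 : A ^ 3 * (T * y ^ 2) ≤ A ^ 3 * (T * y ^ 3) := by
      refine mul_le_mul_of_nonneg_left ?_ hA3p.le
      refine mul_le_mul_of_nonneg_left ?_ (by linarith)
      exact pow_le_pow_right₀ hy (by norm_num)
    nlinarith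
  have a3 : 24 * (K * y0 ^ 2) ≤ S := by
    have h3 : 24 * K * y0 ^ 2 ≤ A ^ 3 * y0 ^ 2 :=
      mul_le_mul_of_nonneg_right (by linarith) (by positivity)
    have h4 : A ^ 3 * y0 ^ 2 ≤ A ^ 3 * y0 ^ 3 :=
      mul_le_mul_of_nonneg_left (pow_le_pow_right₀ hy0 (by norm_num)) hA3p.le
    nlinarith
  refine ⟨by linarith, ?_, ?_⟩
  · have h3 : 4 * y0 ≤ A ^ 3 * y0 := mul_le_mul_of_nonneg_right (by linarith) (by linarith)
    have h4 : A ^ 3 * y0 ≤ A ^ 3 * y0 ^ 3 := by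
      refine mul_le_mul_of_nonneg_left ?_ hA3p.le
      calc y0 = y0 ^ 1 := (pow_one _).symm
        _ ≤ y0 ^ 3 := pow_le_pow_right₀ hy0 (by norm_num)
    linarith
  · have h4 : A ^ 3 * 1 ≤ A ^ 3 * y0 ^ 3 := mul_le_mul_of_nonneg_left hy03 hA3p.le
    linarith

/-- [UBT-T6] one step of the induction on the threshold.
PROOF. Take `c' = c / 2`. For large `A` put `y = tow j (XX l c A)`, `T = tow (j+1) (XX l c A) = exp y`,
`y0 = tow j (XX l0 c0 A)`, `S = tow (j+1) (XX l c' A)`, `s = κ A + K (T y^2 + 4) + K y0^2`.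
(i) `8 s ≤ S` and `1 ≤ S`, `2 ≤ T`, `1 ≤ y0`: `tow_absorb` with `m = 3` gives `A^3 T y^3 ≤ S`, `tow_dom` with `m = 3`
(for `l, c'`) gives `A^3 y0^3 ≤ S`; as `A, y, y0, T ≥ 1` and `A → ∞`: `8 κ A ≤ S/3` (from `A^3 ≤ A^3 T y^3 ≤ S` and `24 κ A ≤ A^3`),
`8 K (T y^2 + 4) ≤ 40 K T y^2 ≤ A^3 T y^3 / 3 ≤ S/3`, `8 K y0^2 ≤ A^3 y0^3/3 ≤ S/3` for large `A`.
(ii) for all `N ≥ 1`: `exp (-s) ≤ Q N A`. `N = 1`: `Q 1 A ≥ A⁻¹^κ = exp (-κ log A) ≥ exp (-κ A)`. `N = N' + 1`, `N' ≥ 1`: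
`Rec1` with `prod_lower` (`y := y^2`, `T`; hypotheses from `h1.1` and `h1.2 2`, `T = tow (j+1) (XX l c A)`), and `Q0 N' A ≥ exp (-y0^2)`:
`Q N A ≥ exp (-κ A) exp (-(T y^2 + 4))^K exp (-y0^2)^K = exp (-s)`.
(iii) part 1 of `Lev`: `exp (-S^2) ≤ exp (-s)` as `s ≤ S ≤ S^2`.
(iv) part 2: given `m`, `many_trials` (for `D`, `m`) with `S := s`, `T0 := tow (j+1) (XX l0 c0 A) = exp y0`: for
`N ≥ tow (j+2) (XX l c' A) = exp S`: `exp (8 s) ≤ exp S ≤ N`; `4 T0^2 = 4 exp (2 y0) ≤ exp (2 + 2 y0) ≤ exp S ≤ N` since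
`2 + 2 y0 ≤ 4 y0^2 .. ≤ S` (from (i)); `N0 ≤ exp S` eventually as `S → ∞` (`tow_XX_tendsto`). The hypothesis on `Q0` is `h0.2 (2 D + 2 m + 4)`. -/
theorem lev_step {Q Q1 Q0 : ℕ → ℝ → ℝ} {j κ K D : ℕ} {l c l0 c0 : ℝ} (hD : 1 ≤ D)
    (hl : 0 < l) (hc : 0 < c) (hl0 : 0 < l0) (hc0 : 0 ≤ c0)
    (hQ : IsP Q) (hQ0 : IsP Q0)
    (h1 : Lev Q1 j l c) (h0 : Lev Q0 j l0 c0)
    (hR1 : Rec1 Q Q1 Q0 κ K) (hR2 : Rec2 Q Q0 D) :
    Lev Q (j + 1) l (c / 2) := by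
  have hc2 : 0 ≤ c / 2 := by linarith
  have hc3 : c / 2 < c := by linarith
  have hκ0 : (0 : ℝ) ≤ κ := Nat.cast_nonneg κ
  have hK0 : (0 : ℝ) ≤ K := Nat.cast_nonneg K
  -- the common eventual facts
  have hev : ∀ᶠ A : ℝ in atTop, 1 < A ∧
      8 * ((κ : ℝ) * A + K * (tow (j + 1) (XX l c A) * (tow j (XX l c A)) ^ 2 + 4) +
        K * (tow j (XX l0 c0 A)) ^ 2) ≤ tow (j + 1) (XX l (c / 2) A) ∧
      2 + 2 * tow j (XX l0 c0 A) ≤ tow (j + 1) (XX l (c / 2) A) ∧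
      1 ≤ tow (j + 1) (XX l (c / 2) A) ∧
      0 ≤ (κ : ℝ) * A + K * (tow (j + 1) (XX l c A) * (tow j (XX l c A)) ^ 2 + 4) +
        K * (tow j (XX l0 c0 A)) ^ 2 ∧
      ∀ N : ℕ, 1 ≤ N → Real.exp (-((κ : ℝ) * A +
        K * (tow (j + 1) (XX l c A) * (tow j (XX l c A)) ^ 2 + 4) +
        K * (tow j (XX l0 c0 A)) ^ 2)) ≤ Q N A := by
    filter_upwards [tow_absorb j 3 hl hc2 hc3, tow_dom j 3 hl0 hc0 hl (c := c / 2),
      (tow_XX_tendsto j (l := l) (c := c) hl).eventually_ge_atTop 1,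
      (tow_XX_tendsto (j + 1) (l := l) (c := c) hl).eventually_ge_atTop 2,
      (tow_XX_tendsto j (l := l0) (c := c0) hl0).eventually_ge_atTop 1,
      eventually_ge_atTop (4 : ℝ), eventually_ge_atTop (24 * (κ : ℝ)),
      eventually_ge_atTop (120 * (K : ℝ)), h1.1, h1.2 2, h0.1] with A b1 b2 b3 b4 b5 b6 b7 b8 b9 b10 b11
    obtain ⟨c1, c2, c3⟩ := ubtt6_num hκ0 hK0 b6 b7 b8 b3 b4 b5 b1 b2
    have hA : 1 < A := by linarith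
    refine ⟨hA, c1, c2, c3, ?_, ubtt6_low hA b4 hR1 b9 b10 b11⟩
    have d1 : 0 ≤ tow (j + 1) (XX l c A) * (tow j (XX l c A)) ^ 2 := by positivity
    have d2 : 0 ≤ (K : ℝ) * (tow (j + 1) (XX l c A) * (tow j (XX l c A)) ^ 2 + 4) :=
      mul_nonneg hK0 (by linarith)
    have d3 : 0 ≤ (K : ℝ) * (tow j (XX l0 c0 A)) ^ 2 := by positivity
    have d4 : 0 ≤ (κ : ℝ) * A := mul_nonneg hκ0 (by linarith)
    linarith
  refine ⟨?_, ?_⟩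
  · filter_upwards [hev] with A hA N hN
    obtain ⟨a1, a2, a3, a4, a5, a6⟩ := hA
    refine le_trans ?_ (a6 N hN)
    rw [Real.exp_le_exp]
    nlinarith
  · intro m
    obtain ⟨N0, hN0⟩ := many_trials hD m
    filter_upwards [hev, (tow_XX_tendsto (j + 1 + 1) (l := l) (c := c / 2) hl).eventually_ge_atTop N0,
      h0.2 (2 * D + 2 * m + 4)] with A hA b1 b2 N hN
    obtain ⟨a1, a2, a3, a4, a5, a6⟩ := hA
    have hQ1 : ∀ b : ℕ, Q b A ≤ 1 := fun b => (hQ A a1 b).2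
    have hNS : Real.exp (tow (j + 1) (XX l (c / 2) A)) ≤ (N : ℝ) := by
      rw [← tow_succ]
      exact hN
    refine hN0 (fun b => Q b A) (fun b => Q0 b A) _ (tow (j + 1) (XX l0 c0 A))
      (tow_succ_pos j _).le a6 hQ1 b2 (hR2 A a1) N (b1.trans hN) ?_ ?_
    · exact (Real.exp_le_exp.2 a2).trans hNS
    · have e1 : (2 : ℝ) ≤ Real.exp 1 := by linarith [Real.add_one_le_exp (1 : ℝ)]
      have e2 : (4 : ℝ) ≤ Real.exp 2 := by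
        have e3 : Real.exp 2 = Real.exp 1 * Real.exp 1 := by
          rw [← Real.exp_add]
          norm_num
        rw [e3]
        nlinarith
      have e4 : (tow (j + 1) (XX l0 c0 A)) ^ 2 = Real.exp (2 * tow j (XX l0 c0 A)) := by
        rw [tow_succ, ← Real.exp_nat_mul]
        norm_num
      rw [e4]
      calc 4 * Real.exp (2 * tow j (XX l0 c0 A)) ≤ Real.exp 2 * Real.exp (2 * tow j (XX l0 c0 A)) :=
            mul_le_mul_of_nonneg_right e2 (Real.exp_pos _).le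
        _ = Real.exp (2 + 2 * tow j (XX l0 c0 A)) := (Real.exp_add _ _).symm
        _ ≤ Real.exp (tow (j + 1) (XX l (c / 2) A)) := Real.exp_le_exp.2 a3
        _ ≤ N := hNS

end UBT
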