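import Pool.Agent.UBT.T1

set_option autoImplicit false

open Filter

namespace UBT

theorem ubtt7_grow {l d M : ℝ} (hl : 0 < l) (hd : 0 < d) (hM : 0 < M) :
    ∀ᶠ A : ℝ in atTop, M * (l * A) ^ 5 ≤ Real.exp (d * Real.sqrt A) := by
  have h1 : Tendsto (fun A : ℝ => d * Real.sqrt A) atTop atTop :=
    Real.tendsto_sqrt_atTop.const_mul_atTop hd
  have h2 := (Real.tendsto_pow_mul_exp_neg_atTop_nhds_zero 10).comp h1
  have hε : (0 : ℝ) < d ^ 10 / (M * l ^ 5) := by positivity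
  filter_upwards [h2.eventually (gt_mem_nhds hε), eventually_ge_atTop (0 : ℝ)] with A hA hA0
  simp only [Function.comp] at hA
  have hs := Real.sq_sqrt hA0
  have h3 : (d * Real.sqrt A) ^ 10 = d ^ 10 * A ^ 5 := by
    rw [mul_pow]
    congr 1
    calc Real.sqrt A ^ 10 = (Real.sqrt A ^ 2) ^ 5 := by ring
      _ = A ^ 5 := by rw [hs]
  rw [h3, lt_div_iff₀ (by positivity), Real.exp_neg] at hA
  have he := Real.exp_pos (d * Real.sqrt A)
  have h4 : d ^ 10 * (M * (l * A) ^ 5) < d ^ 10 * Real.exp (d * Real.sqrt A) := by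
    have h5 : d ^ 10 * A ^ 5 * (Real.exp (d * Real.sqrt A))⁻¹ * (M * l ^ 5) * Real.exp (d * Real.sqrt A)
        < d ^ 10 * Real.exp (d * Real.sqrt A) := mul_lt_mul_of_pos_right hA he
    have h6 : d ^ 10 * A ^ 5 * (Real.exp (d * Real.sqrt A))⁻¹ * (M * l ^ 5) * Real.exp (d * Real.sqrt A)
        = d ^ 10 * (M * (l * A) ^ 5) := by
      field_simp
    rwa [h6] at h5
  exact (lt_of_mul_lt_mul_left h4 (by positivity)).le

theorem ubtt7_pow5 {y y0 : ℝ} (h0 : 5 ≤ y0) (hy : y0 ≤ y) : y ^ 5 ≤ y0 ^ 5 * Real.exp (y - y0) := by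
  have hy0 : (0 : ℝ) < y0 := by linarith
  have h1 : y / y0 ≤ Real.exp (y / y0 - 1) := by
    have := Real.add_one_le_exp (y / y0 - 1)
    linarith
  have h2 : (y / y0) ^ 5 ≤ Real.exp (y / y0 - 1) ^ 5 :=
    pow_le_pow_left₀ (div_nonneg (by linarith) hy0.le) h1 5
  have h3 : Real.exp (y / y0 - 1) ^ 5 ≤ Real.exp (y - y0) := by
    rw [← Real.exp_nat_mul]
    apply Real.exp_le_exp.mpr
    have h4 : y / y0 - 1 = (y - y0) / y0 := by field_simp
    have h5 : (y - y0) / y0 ≤ (y - y0) / 5 :=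
      div_le_div_of_nonneg_left (by linarith) (by norm_num) h0
    rw [h4]
    push_cast
    linarith
  have h6 : y ^ 5 = y0 ^ 5 * (y / y0) ^ 5 := by
    rw [div_pow]
    field_simp
  rw [h6]
  exact mul_le_mul_of_nonneg_left (h2.trans h3) (by positivity)

/-- [UBT-T7] first numerical fact for the base case.
PROOF. `XX l c A = XX l c' A - (c - c') √A`, so for `y ≥ XX l c' A`: `y - XX l c A = (y - XX l c' A) + (c - c') √A`.
It suffices that `(m y + 1) 4 y^4 ≤ exp (y - XX l c A)` (then the base of the power is `≥ m y + 1 ≥ 1`, and `x ≤ x^D` for `x ≥ 1`, `D ≥ 1`).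
For `y ≥ 1`: `(m y + 1) 4 y^4 ≤ 4 (m+1) y^5`. Put `f(y) = y - 5 log y`, increasing on `[5, ∞)`; so for `y ≥ y_0 := XX l c' A ≥ 5`:
`y - 5 log y ≥ y_0 - 5 log y_0`, i.e. `y - y_0 ≥ 5 log y - 5 log y_0` (direct: `log (y/y_0) ≤ y/y_0 - 1 = (y - y_0)/y_0 ≤ (y-y_0)/5`).
Hence `y - XX l c A ≥ 5 log y - 5 log y_0 + (c - c') √A ≥ 5 log y + log (4 (m+1))` as soon as
`(c - c') √A ≥ 5 log (l A) + log (4 (m+1))` (`y_0 ≤ l A` by `XX_le`), true for large `A` (`log =o √`). Exponentiate. -/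
theorem base_calc1 (D m : ℕ) (hD : 1 ≤ D) {l c c' : ℝ} (hl : 0 < l) (hc' : 0 ≤ c') (hc : c' < c) :
    ∀ᶠ A : ℝ in atTop, ∀ y : ℝ, XX l c' A ≤ y →
      (m : ℝ) * y + 1 ≤ (Real.exp (y - XX l c A) / (4 * y ^ 4)) ^ D := by
  have hl2 : Tendsto (fun A : ℝ => XX l c' A) atTop atTop := XX_tendsto hl
  filter_upwards [hl2.eventually_ge_atTop 5,
    ubtt7_grow (l := l) (d := c - c') (M := 4 * ((m : ℝ) + 1)) hl (by linarith) (by positivity)] with A hA hg
  intro y hy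
  have hy5 : (5 : ℝ) ≤ y := hA.trans hy
  have hXc : XX l c' A - XX l c A = (c - c') * Real.sqrt A := by
    unfold XX
    ring
  have hle : XX l c' A ≤ l * A := XX_le hc'
  have h1 := ubtt7_pow5 hA hy
  have h2 : (XX l c' A) ^ 5 ≤ (l * A) ^ 5 := pow_le_pow_left₀ (by linarith) hle 5
  have hm : (0 : ℝ) ≤ m := Nat.cast_nonneg m
  have h3 : ((m : ℝ) * y + 1) * (4 * y ^ 4) ≤ Real.exp (y - XX l c A) := by
    calc ((m : ℝ) * y + 1) * (4 * y ^ 4) ≤ (((m : ℝ) + 1) * y) * (4 * y ^ 4) := by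
          apply mul_le_mul_of_nonneg_right _ (by positivity)
          nlinarith
      _ = 4 * ((m : ℝ) + 1) * y ^ 5 := by ring
      _ ≤ 4 * ((m : ℝ) + 1) * ((XX l c' A) ^ 5 * Real.exp (y - XX l c' A)) :=
          mul_le_mul_of_nonneg_left h1 (by positivity)
      _ ≤ 4 * ((m : ℝ) + 1) * ((l * A) ^ 5 * Real.exp (y - XX l c' A)) :=
          mul_le_mul_of_nonneg_left (mul_le_mul_of_nonneg_right h2 (Real.exp_pos _).le) (by positivity)
      _ = (4 * ((m : ℝ) + 1) * (l * A) ^ 5) * Real.exp (y - XX l c' A) := by ring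
      _ ≤ Real.exp ((c - c') * Real.sqrt A) * Real.exp (y - XX l c' A) :=
          mul_le_mul_of_nonneg_right hg (Real.exp_pos _).le
      _ = Real.exp (y - XX l c A) := by
          rw [← Real.exp_add, ← hXc]
          congr 1
          ring
  have h4 : (m : ℝ) * y + 1 ≤ Real.exp (y - XX l c A) / (4 * y ^ 4) := by
    rw [le_div_iff₀ (by positivity)]
    exact h3
  have h5 : (1 : ℝ) ≤ Real.exp (y - XX l c A) / (4 * y ^ 4) := by
    refine le_trans ?_ h4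
    have := mul_nonneg hm (by linarith : (0 : ℝ) ≤ y)
    linarith
  exact h4.trans (le_self_pow₀ h5 (by omega))

/-- second numerical fact for the base case.
PROOF. For large `A` and `y ≥ XX l c' A`: `y ≥ l A / 2` (`XX_ge`), so `A⁻¹ y^4 ≥ (l/2) y^3 ≥ y^2 ≥ 1` when `y ≥ 2/l`, `y ≥ 1`; hence
`(A⁻¹ y^4)^κ ≥ A⁻¹ y^4 ≥ y^2` (`κ ≥ 1`), and the left side is `≤ D exp (D y + m y - y^2) ≤ 1/2` as soon as `y ≥ D + m + 1` and
`D exp (-y) ≤ 1/2`: `D y + m y - y^2 ≤ -y`. -/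
theorem base_calc2 (D m κ : ℕ) (hκ : 1 ≤ κ) {l c' : ℝ} (hl : 0 < l) :
    ∀ᶠ A : ℝ in atTop, ∀ y : ℝ, XX l c' A ≤ y →
      (D : ℝ) * Real.exp (D * y) * Real.exp (-((A⁻¹ * y ^ 4) ^ κ)) * Real.exp (m * y) ≤ 1 / 2 := by
  have hl2 : Tendsto (fun A : ℝ => l / 2 * A) atTop atTop :=
    tendsto_id.const_mul_atTop (half_pos hl)
  filter_upwards [XX_ge (c := c') hl, hl2.eventually_ge_atTop (2 / l), hl2.eventually_ge_atTop (1 : ℝ),
    hl2.eventually_ge_atTop ((D : ℝ) + m + 1), hl2.eventually_ge_atTop (2 * (D : ℝ)),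
    eventually_gt_atTop (0 : ℝ)] with A hX h2l h1 hDm h2D hA0
  intro y hy
  have hyA : l / 2 * A ≤ y := hX.trans hy
  have hy1 : (1 : ℝ) ≤ y := h1.trans hyA
  have hy0 : (0 : ℝ) < y := by linarith
  have hD0 : (0 : ℝ) ≤ D := Nat.cast_nonneg D
  have ha : l / 2 ≤ A⁻¹ * y := by
    rw [inv_mul_eq_div, le_div_iff₀ hA0]
    exact hyA
  have hb : (1 : ℝ) ≤ l / 2 * y := by
    have h3 : 2 / l ≤ y := h2l.trans hyA
    rw [div_le_iff₀ hl] at h3
    linarith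
  have hc : y ^ 2 ≤ A⁻¹ * y ^ 4 := by
    calc y ^ 2 = 1 * y ^ 2 := by ring
      _ ≤ (l / 2 * y) * y ^ 2 := mul_le_mul_of_nonneg_right hb (by positivity)
      _ = l / 2 * y ^ 3 := by ring
      _ ≤ (A⁻¹ * y) * y ^ 3 := mul_le_mul_of_nonneg_right ha (by positivity)
      _ = A⁻¹ * y ^ 4 := by ring
  have hd : (1 : ℝ) ≤ A⁻¹ * y ^ 4 := le_trans (by nlinarith) hc
  have he : y ^ 2 ≤ (A⁻¹ * y ^ 4) ^ κ := hc.trans (le_self_pow₀ hd (by omega))
  have hf : Real.exp (-((A⁻¹ * y ^ 4) ^ κ)) ≤ Real.exp (-(y ^ 2)) :=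
    Real.exp_le_exp.mpr (by linarith)
  have hg : Real.exp (D * y) * Real.exp (-(y ^ 2)) * Real.exp (m * y) ≤ Real.exp (-y) := by
    rw [← Real.exp_add, ← Real.exp_add]
    apply Real.exp_le_exp.mpr
    have : ((D : ℝ) + m + 1) * y ≤ y * y := mul_le_mul_of_nonneg_right (hDm.trans hyA) hy0.le
    nlinarith
  have hh : (D : ℝ) * Real.exp (-y) ≤ 1 / 2 := by
    have h3 := Real.add_one_le_exp y
    have h4 : 2 * (D : ℝ) ≤ Real.exp y := by linarith
    rw [Real.exp_neg, ← div_eq_mul_inv, div_le_iff₀ (Real.exp_pos y)]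
    linarith
  calc (D : ℝ) * Real.exp (D * y) * Real.exp (-((A⁻¹ * y ^ 4) ^ κ)) * Real.exp (m * y)
      ≤ (D : ℝ) * Real.exp (D * y) * Real.exp (-(y ^ 2)) * Real.exp (m * y) := by
        apply mul_le_mul_of_nonneg_right _ (Real.exp_pos _).le
        exact mul_le_mul_of_nonneg_left hf (by positivity)
    _ = (D : ℝ) * (Real.exp (D * y) * Real.exp (-(y ^ 2)) * Real.exp (m * y)) := by ring
    _ ≤ (D : ℝ) * Real.exp (-y) := mul_le_mul_of_nonneg_left hg hD0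
    _ ≤ 1 / 2 := hh

end UBT
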