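import Pool.Agent.UBT.T7

set_option autoImplicit false

open Filter

namespace UBT

theorem ubtt8_log (C : ℝ) {l : ℝ} (hl : 0 < l) :
    ∀ᶠ A : ℝ in atTop, C * A * Real.log A ≤ (l / 2 * A) ^ 2 := by
  have hpos : (0 : ℝ) < (l / 2) ^ 2 / (|C| + 1) := by positivity
  filter_upwards [Real.isLittleO_log_id_atTop.def hpos, eventually_ge_atTop (0 : ℝ)] with A hA hA0
  rw [Real.norm_eq_abs, Real.norm_eq_abs, id, abs_of_nonneg hA0] at hA
  have hC : (0 : ℝ) < |C| + 1 := by positivity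
  have h1 : C * A * Real.log A ≤ (|C| + 1) * A * |Real.log A| := by
    calc C * A * Real.log A ≤ |C * A * Real.log A| := le_abs_self _
      _ = |C| * A * |Real.log A| := by rw [abs_mul, abs_mul, abs_of_nonneg hA0]
      _ ≤ (|C| + 1) * A * |Real.log A| := by
          apply mul_le_mul_of_nonneg_right _ (abs_nonneg _)
          exact mul_le_mul_of_nonneg_right (by linarith) hA0
  refine h1.trans ?_
  calc (|C| + 1) * A * |Real.log A| ≤ (|C| + 1) * A * ((l / 2) ^ 2 / (|C| + 1) * A) :=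
        mul_le_mul_of_nonneg_left hA (mul_nonneg hC.le hA0)
    _ = (l / 2 * A) ^ 2 := by field_simp

theorem ubtt8_exp : ∃ y1 : ℝ, ∀ y : ℝ, y1 ≤ y → 2 * y ^ 4 ≤ Real.exp y := by
  have h2 := Real.tendsto_pow_mul_exp_neg_atTop_nhds_zero 4
  have h3 := h2.eventually (gt_mem_nhds (show (0 : ℝ) < 1 / 2 by norm_num))
  obtain ⟨y1, hy1⟩ := eventually_atTop.1 h3
  refine ⟨y1, fun y hy => ?_⟩
  have h4 := hy1 y hy
  rw [Real.exp_neg, ← div_eq_mul_inv, div_lt_iff₀ (Real.exp_pos y)] at h4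
  linarith

/-- the first term -/
theorem ubtt8_first {q X y : ℝ} {D m b N : ℕ} (hb : 1 ≤ b) (hbN : b ≤ N) (hy : 0 < y)
    (hN : (N : ℝ) = Real.exp y) (hb2 : (b : ℝ) ≤ 2 * y ^ 4) (hq0 : 0 ≤ q) (hq1 : q ≤ 1)
    (hq : Real.exp (-((D : ℝ) * X)) ≤ q)
    (h : (m : ℝ) * y + 1 ≤ (Real.exp (y - X) / (4 * y ^ 4)) ^ D) :
    (1 - q) ^ ((N / b) ^ D) ≤ Real.exp (-((m : ℝ) * y + 1)) := by
  have hb0 : (0 : ℝ) < b := by exact_mod_cast hb
  have hy4 : (0 : ℝ) < y ^ 4 := by positivity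
  have h1 : (1 - q) ^ ((N / b) ^ D) ≤ Real.exp (-q) ^ ((N / b) ^ D) := by
    apply pow_le_pow_left₀ (by linarith)
    have := Real.add_one_le_exp (-q)
    linarith
  refine h1.trans ?_
  rw [← Real.exp_nat_mul]
  apply Real.exp_le_exp.mpr
  -- natural division
  have h2 : Real.exp y / (4 * y ^ 4) ≤ ((N / b : ℕ) : ℝ) := by
    have h3 : N < b * (N / b + 1) := Nat.lt_mul_div_succ N (by omega)
    have h4 : 1 ≤ N / b := (Nat.one_le_div_iff (by omega)).2 hbN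
    have h5 : N ≤ 2 * b * (N / b) := by nlinarith
    have h6 : (N : ℝ) ≤ 2 * b * ((N / b : ℕ) : ℝ) := by exact_mod_cast h5
    rw [div_le_iff₀ (by positivity), ← hN]
    have h7 : (0 : ℝ) ≤ ((N / b : ℕ) : ℝ) := Nat.cast_nonneg _
    calc (N : ℝ) ≤ 2 * b * ((N / b : ℕ) : ℝ) := h6
      _ ≤ 2 * (2 * y ^ 4) * ((N / b : ℕ) : ℝ) := by
          apply mul_le_mul_of_nonneg_right _ h7
          linarith
      _ = ((N / b : ℕ) : ℝ) * (4 * y ^ 4) := by ring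
  have h8 : (m : ℝ) * y + 1 ≤ (((N / b) ^ D : ℕ) : ℝ) * q := by
    calc (m : ℝ) * y + 1 ≤ (Real.exp (y - X) / (4 * y ^ 4)) ^ D := h
      _ = (Real.exp y / (4 * y ^ 4)) ^ D * Real.exp (-((D : ℝ) * X)) := by
          have h9 : Real.exp (-((D : ℝ) * X)) = Real.exp (-X) ^ D := by
            rw [← Real.exp_nat_mul]
            congr 1
            ring
          rw [h9, ← mul_pow]
          congr 1
          rw [sub_eq_add_neg, Real.exp_add]
          ring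
      _ ≤ (((N / b : ℕ) : ℝ)) ^ D * q := by
          apply mul_le_mul _ hq (Real.exp_pos _).le (by positivity)
          exact pow_le_pow_left₀ (by positivity) h2 D
      _ = (((N / b) ^ D : ℕ) : ℝ) * q := by push_cast; ring
  linarith

/-- [UBT-T8] the base case (threshold two).
PROOF. Take `c' = c/2`. Part 1: `exp (-(XX l c' A)^2) ≤ exp (-(C A log A))` for large `A`: `(XX l c' A)^2 ≥ (l A/2)^2` (`XX_ge`) and
`C A log A ≤ (l/2)^2 A^2` eventually (`log A = o(A)`); `tow_zero`.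
Part 2: given `m`; `A` large, `N` with `tow 1 (XX l c' A) = exp (XX l c' A) ≤ N`. Put `y = log N ≥ XX l c' A` (`→ ∞`), `N = exp y`,
`b = ⌈y^4⌉₊`; `b ≥ 1`, `y^4 ≤ b ≤ y^4 + 1 ≤ 2 y^4` and `2 y^4 ≤ exp y = N`, so `b ≤ N` (for large `y`). `C A ≤ y^4 ≤ b`
(`y ≥ l A/2`, large). `Rec2` (with `D = κ + 1`):
`1 - Q N A ≤ (1 - Q b A)^((N/b)^D) + D N^D (1 - Q0 b A)`.
First term: natural division `N/b ≥ N/(2 b)` (as `b ≤ N`: `N < b (N/b + 1) ≤ 2 b (N/b)`), so `(N/b : ℝ) ≥ exp y/(4 y^4)`;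
`Q b A ≥ exp (-(D XX l c A)) ` (`hN2`), `1 - Q b A ≤ exp (-Q b A)`; the term is
`≤ exp (-(Q b A (N/b)^D)) ≤ exp (-((exp (y - XX l c A)/(4 y^4))^D)) ≤ exp (-(m y + 1))` by `base_calc1`; times `N^m = exp (m y)`: `≤ exp (-1) ≤ 1/2`.
Second term: `1 - Q0 b A ≤ exp (-(A⁻¹^κ b^κ)) ≤ exp (-((A⁻¹ y^4)^κ))`, so `D N^D (1 - Q0 b A) N^m ≤ 1/2` by `base_calc2`. -/
theorem lev_base {Q Q0 : ℕ → ℝ → ℝ} {κ : ℕ} (hκ : 1 ≤ κ) {l c C : ℝ} (hl : 0 < l) (hc : 0 < c)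
    (hQ : IsP Q) (hQ0 : IsP Q0) (hR2 : Rec2 Q Q0 (κ + 1))
    (hR3 : ∀ A : ℝ, 1 < A → ∀ b : ℕ, 1 - Q0 b A ≤ Real.exp (-(A⁻¹ ^ κ * (b : ℝ) ^ κ)))
    (hN1 : ∀ᶠ A : ℝ in atTop, ∀ N : ℕ, 1 ≤ N → Real.exp (-(C * A * Real.log A)) ≤ Q N A)
    (hN2 : ∀ᶠ A : ℝ in atTop, ∀ N : ℕ, C * A ≤ (N : ℝ) →
      Real.exp (-(((κ : ℝ) + 1) * XX l c A)) ≤ Q N A) :
    Lev Q 0 l (c / 2) := by
  have hc2 : (0 : ℝ) ≤ c / 2 := by linarith
  have hc3 : c / 2 < c := by linarith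
  refine ⟨?_, ?_⟩
  · filter_upwards [hN1, ubtt8_log C hl, XX_ge (c := c / 2) hl, eventually_ge_atTop (0 : ℝ)] with A h1 h2 h3 h4
    intro N hN
    refine le_trans ?_ (h1 N hN)
    apply Real.exp_le_exp.mpr
    rw [tow_zero]
    have h5 : (l / 2 * A) ^ 2 ≤ (XX l (c / 2) A) ^ 2 :=
      pow_le_pow_left₀ (by positivity) h3 2
    linarith
  · intro m
    obtain ⟨y1, hy1⟩ := ubtt8_exp
    have hX : Tendsto (fun A : ℝ => XX l (c / 2) A) atTop atTop := XX_tendsto hl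
    filter_upwards [base_calc1 (κ + 1) m (by omega) hl hc2 hc3,
      base_calc2 (c' := c / 2) (κ + 1) m κ hκ hl, hN2, XX_ge (c := c / 2) hl,
      hX.eventually_ge_atTop y1, hX.eventually_ge_atTop 1, hX.eventually_ge_atTop (2 * C / l),
      eventually_gt_atTop (1 : ℝ)] with A a1 a2 a3 a4 a5 a6 a7 a8
    intro N hN
    have hN' : Real.exp (XX l (c / 2) A) ≤ (N : ℝ) := hN
    have hN0 : (0 : ℝ) < N := (Real.exp_pos _).trans_le hN'
    obtain ⟨y, hy⟩ : ∃ y : ℝ, y = Real.log N := ⟨_, rfl⟩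
    have hNy : (N : ℝ) = Real.exp y := by rw [hy, Real.exp_log hN0]
    have hXy : XX l (c / 2) A ≤ y := by
      rw [hNy] at hN'
      exact Real.exp_le_exp.1 hN'
    have hyone : 1 ≤ y := a6.trans hXy
    have hy0 : 0 < y := by linarith
    have hy4 : (1 : ℝ) ≤ y ^ 4 := one_le_pow₀ hyone
    obtain ⟨b, hb⟩ : ∃ b : ℕ, b = ⌈y ^ 4⌉₊ := ⟨_, rfl⟩
    have hb1 : y ^ 4 ≤ (b : ℝ) := by rw [hb]; exact Nat.le_ceil _
    have hb2 : (b : ℝ) ≤ 2 * y ^ 4 := by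
      have h1 : (b : ℝ) < y ^ 4 + 1 := by
        rw [hb]
        exact Nat.ceil_lt_add_one (by positivity)
      linarith
    have hb3 : 1 ≤ b := by
      have : (1 : ℝ) ≤ b := hy4.trans hb1
      exact_mod_cast this
    have hbN : b ≤ N := by
      have h1 : (b : ℝ) ≤ N := by
        rw [hNy]
        exact hb2.trans (hy1 y (a5.trans hXy))
      exact_mod_cast h1
    have hCA : C * A ≤ (b : ℝ) := by
      refine le_trans ?_ hb1
      have h1 : 2 * C / l ≤ y := a7.trans hXy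
      rw [div_le_iff₀ hl] at h1
      have h2 : l / 2 * A ≤ y := a4.trans hXy
      have hA0 : (0 : ℝ) < A := by linarith
      calc C * A ≤ (l / 2 * y) * A := mul_le_mul_of_nonneg_right (by linarith) hA0.le
        _ = y * (l / 2 * A) := by ring
        _ ≤ y * y := mul_le_mul_of_nonneg_left h2 hy0.le
        _ = y ^ 2 := by ring
        _ ≤ y ^ 4 := pow_le_pow_right₀ hyone (by norm_num)
    have hfirst := ubtt8_first (q := Q b A) (X := XX l c A) (D := κ + 1) (m := m) hb3 hbN hy0 hNy hb2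
      (hQ A a8 b).1 (hQ A a8 b).2 (by
        have := a3 b hCA
        push_cast
        exact this) (a1 y hXy)
    have hr := hR2 A a8 b N hb3 hbN
    have hsecond : ((κ + 1 : ℕ) : ℝ) * (N : ℝ) ^ (κ + 1) * (1 - Q0 b A) * (N : ℝ) ^ m ≤ 1 / 2 := by
      have h1 : 1 - Q0 b A ≤ Real.exp (-((A⁻¹ * y ^ 4) ^ κ)) := by
        refine (hR3 A a8 b).trans ?_
        apply Real.exp_le_exp.mpr
        have hA0 : (0 : ℝ) < A := by linarith
        have h2 : (A⁻¹ * y ^ 4) ^ κ ≤ (A⁻¹ * (b : ℝ)) ^ κ := by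
          apply pow_le_pow_left₀ (by positivity)
          exact mul_le_mul_of_nonneg_left hb1 (inv_nonneg.2 hA0.le)
        rw [mul_pow A⁻¹ (b : ℝ)] at h2
        linarith
      have h3 := a2 y hXy
      have e1 : (N : ℝ) ^ (κ + 1) = Real.exp (((κ + 1 : ℕ) : ℝ) * y) := by
        rw [hNy, ← Real.exp_nat_mul]
      have e2 : (N : ℝ) ^ m = Real.exp ((m : ℝ) * y) := by
        rw [hNy, ← Real.exp_nat_mul]
      rw [e1, e2]
      refine le_trans ?_ h3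
      apply mul_le_mul_of_nonneg_right _ (Real.exp_pos _).le
      exact mul_le_mul_of_nonneg_left h1 (mul_nonneg (Nat.cast_nonneg _) (Real.exp_pos _).le)
    have hNm : (0 : ℝ) ≤ (N : ℝ) ^ m := by positivity
    have hfirst2 : (1 - Q b A) ^ ((N / b) ^ (κ + 1)) * (N : ℝ) ^ m ≤ 1 / 2 := by
      have e2 : (N : ℝ) ^ m = Real.exp ((m : ℝ) * y) := by
        rw [hNy, ← Real.exp_nat_mul]
      calc (1 - Q b A) ^ ((N / b) ^ (κ + 1)) * (N : ℝ) ^ m
          ≤ Real.exp (-((m : ℝ) * y + 1)) * (N : ℝ) ^ m := mul_le_mul_of_nonneg_right hfirst hNm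
        _ = Real.exp (-1) := by
            rw [e2, ← Real.exp_add]
            congr 1
            ring
        _ ≤ 1 / 2 := by
            rw [Real.exp_neg, one_div]
            apply inv_anti₀ (by norm_num)
            have := Real.add_one_le_exp (1 : ℝ)
            linarith
    calc (1 - Q N A) * (N : ℝ) ^ m
        ≤ ((1 - Q b A) ^ ((N / b) ^ (κ + 1)) +
            ((κ + 1 : ℕ) : ℝ) * (N : ℝ) ^ (κ + 1) * (1 - Q0 b A)) * (N : ℝ) ^ m :=
          mul_le_mul_of_nonneg_right hr hNm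
      _ = (1 - Q b A) ^ ((N / b) ^ (κ + 1)) * (N : ℝ) ^ m +
            ((κ + 1 : ℕ) : ℝ) * (N : ℝ) ^ (κ + 1) * (1 - Q0 b A) * (N : ℝ) ^ m := by ring
      _ ≤ 1 / 2 + 1 / 2 := add_le_add hfirst2 hsecond
      _ = 1 := by norm_num

end UBT
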