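import Pool.Agent.UBT.T6
import Pool.Agent.UBT.T8

set_option autoImplicit false

open Filter

namespace UBT

/-- [UBT-T9] the induction on the threshold. `Q s h N A` is the probability that the cube of side `N` in dimension
`κ + s - 1` is filled, threshold `s`, `h` additional marks, `p = A^(-κ)`.
PROOF. Induction on `j`, for all `h`: `∃ c > 0, Lev (Q (j+2) h) j (lam (j + 2 + h)) c`. `j = 0`: `lev_base` (replace the two constants `C` of `hN1` and `hN2` by their maximum). Step: the hypothesis for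
`(j, h+1)` has constant `lam (j + 2 + (h+1)) = lam (j + 3 + h)`, for `(j, h)`: `lam (j+2+h)`; `lev_step` with `D = κ + (j + 2)`, `K = K (j+2)`. -/
theorem lev_all {Q : ℕ → ℕ → ℕ → ℝ → ℝ} {κ : ℕ} (hκ : 1 ≤ κ) {lam : ℕ → ℝ} (hlam : ∀ s, 0 < lam s)
    (K : ℕ → ℕ) (hQ : ∀ s h, IsP (Q s h))
    (hR1 : ∀ s h, 2 ≤ s → Rec1 (Q (s + 1) h) (Q s (h + 1)) (Q s h) κ (K s))
    (hR2 : ∀ s h, 1 ≤ s → Rec2 (Q (s + 1) h) (Q s h) (κ + s))
    (hR3 : ∀ h, ∀ A : ℝ, 1 < A → ∀ b : ℕ, 1 - Q 1 h b A ≤ Real.exp (-(A⁻¹ ^ κ * (b : ℝ) ^ κ)))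
    (hN1 : ∀ h, ∃ C : ℝ, ∀ᶠ A : ℝ in atTop, ∀ N : ℕ, 1 ≤ N →
      Real.exp (-(C * A * Real.log A)) ≤ Q 2 h N A)
    (hN2 : ∀ h, ∃ c : ℝ, 0 < c ∧ ∃ C : ℝ, ∀ᶠ A : ℝ in atTop, ∀ N : ℕ, C * A ≤ (N : ℝ) →
      Real.exp (-(((κ : ℝ) + 1) * XX (lam (2 + h)) c A)) ≤ Q 2 h N A) (j h : ℕ) :
    ∃ c : ℝ, 0 < c ∧ Lev (Q (j + 2) h) j (lam (j + 2 + h)) c := by
  induction j generalizing h with
  | zero =>
    obtain ⟨C1, hC1⟩ := hN1 h
    obtain ⟨c, hc, C2, hC2⟩ := hN2 h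
    refine ⟨c / 2, by positivity, ?_⟩
    have hlev : Lev (Q 2 h) 0 (lam (2 + h)) (c / 2) := by
      refine lev_base (Q0 := Q 1 h) (C := max C1 C2) hκ (hlam (2 + h)) hc (hQ 2 h) (hQ 1 h)
        (hR2 1 h le_rfl) (hR3 h) ?_ ?_
      · filter_upwards [hC1, eventually_gt_atTop (1 : ℝ)] with A hA hA1 N hN
        refine le_trans (Real.exp_le_exp.mpr ?_) (hA N hN)
        have hlog : 0 ≤ Real.log A := Real.log_nonneg hA1.le
        have h1 : C1 * A * Real.log A ≤ max C1 C2 * A * Real.log A := by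
          have h2 : C1 * A ≤ max C1 C2 * A :=
            mul_le_mul_of_nonneg_right (le_max_left _ _) (by linarith)
          exact mul_le_mul_of_nonneg_right h2 hlog
        linarith
      · filter_upwards [hC2, eventually_gt_atTop (1 : ℝ)] with A hA hA1 N hN
        refine hA N (le_trans ?_ hN)
        exact mul_le_mul_of_nonneg_right (le_max_right _ _) (by linarith)
    simpa using hlev
  | succ j ih =>
    obtain ⟨c1, hc1, hL1⟩ := ih (h + 1)
    obtain ⟨c0, hc0, hL0⟩ := ih h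
    refine ⟨c1 / 2, by positivity, ?_⟩
    have e1 : j + 2 + (h + 1) = j + 1 + 2 + h := by omega
    rw [e1] at hL1
    have e2 : j + 1 + 2 = j + 2 + 1 := by omega
    have hlev := lev_step (Q := Q (j + 2 + 1) h) (D := κ + (j + 2)) (by omega)
      (hlam (j + 1 + 2 + h)) hc1 (hlam (j + 2 + h)) hc0.le (hQ (j + 2 + 1) h) (hQ (j + 2) h)
      hL1 hL0 (hR1 (j + 2) h (by omega)) (hR2 (j + 2) h (by omega))
    exact hlev

end UBT
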